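import Pool.Agent.H72.GM2.Tr

/-!
# Theorem (G), MP_c59857_nt, for all functions which agree on the squarefree numbers with the
product of the Möbius function and a Dirichlet character: the theorem
-/

set_option autoImplicit false

open Finset Pool.Agent.H6.N4D Pool.Agent.H93.EB

namespace Pool.Agent.H72.GM2

/-- the two logarithms -/
lemma logs {C H X : ℕ} (hC : 3 ≤ C) (hCH : C ≤ H) (hHX : H ^ C ≤ X) :
    1 ≤ Real.log H ∧ (C : ℝ) * Real.log H ≤ Real.log X ∧ 1 ≤ Real.log X := by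
  have hH3 : (3 : ℝ) ≤ H := by exact_mod_cast (by omega : 3 ≤ H)
  have hlH : 1 ≤ Real.log H := by
    have h3 : Real.exp 1 ≤ H := by
      have := Real.exp_one_lt_d9
      linarith
    exact (Real.le_log_iff_exp_le (by linarith)).mpr h3
  have hCL : (C : ℝ) * Real.log H ≤ Real.log X := by
    have h3 := Real.log_le_log (by positivity : (0 : ℝ) < (H : ℝ) ^ C)
      (by exact_mod_cast hHX : (H : ℝ) ^ C ≤ X)
    rw [Real.log_pow] at h3
    exact h3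
  have h3 : (1 : ℝ) ≤ C := by exact_mod_cast (by omega : 1 ≤ C)
  exact ⟨hlH, hCL, by nlinarith⟩

theorem Tr_mx (q : ℕ) (hq : 1 ≤ q) : Tr (PC q) (mx q) := by
  intro j hj
  obtain ⟨D, hD⟩ : ∃ D, D = 16 * j := ⟨_, rfl⟩
  refine ⟨4 * j, D.factorial ^ 2 * q, 16 * j, by omega, ?_⟩
  intro R H X f F hP hF hC hX he
  obtain ⟨hf, χ, hs⟩ := hP
  obtain ⟨h1, h2, h3⟩ := logs (by omega) hC hX
  obtain ⟨G, hG, h4⟩ := f_to_mx q hq χ f hf hs F D H X hF (by omega) (by omega)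
  refine ⟨G, hG, h4.trans ?_⟩
  have hj0 : (1 : ℝ) ≤ j := by exact_mod_cast hj
  have hjp : (0 : ℝ) < j := by linarith
  obtain ⟨L, hL⟩ : ∃ L : ℝ, L = Real.log X := ⟨_, rfl⟩
  obtain ⟨h, hh⟩ : ∃ h : ℝ, h = Real.log H := ⟨_, rfl⟩
  rw [← hL] at he h2 h3 ⊢
  rw [← hh] at h1 h2 ⊢
  have hDr : (D : ℝ) = 16 * j := by rw [hD]; push_cast; ring
  push_cast at he h2
  have p1 : 2 * (1 / (D : ℝ) * (1 + L)) ≤ L / (4 * j) := by
    calc 2 * (1 / (D : ℝ) * (1 + L)) ≤ 2 * (1 / (D : ℝ) * (2 * L)) := by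
          apply mul_le_mul_of_nonneg_left _ (by positivity)
          apply mul_le_mul_of_nonneg_left _ (by rw [hDr]; positivity)
          linarith
      _ = L / (4 * j) := by rw [hDr]; field_simp; ring
  have p2 : 2 * (1 + h) ≤ L / (4 * j) := by
    rw [le_div_iff₀ (by positivity)]
    nlinarith
  have p3 : 2 * lg X (er f F H) ≤ L / (2 * j) := by
    calc 2 * lg X (er f F H) ≤ 2 * (1 / (4 * (j : ℝ)) * L) := by linarith
      _ = _ := by field_simp; ring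
  have e : L / (2 * (j : ℝ)) + L / (4 * j) + L / (4 * j) = 1 / j * L := by
    field_simp; ring
  linarith

theorem Tr_mb (q : ℕ) (hq : 1 ≤ q) : Tr (fun f => f = mx q) mb := by
  intro j hj
  obtain ⟨C, hC⟩ : ∃ C, C = 4 * j * q ^ 2 * (3 + q) := ⟨_, rfl⟩
  have hq2 : 1 ≤ q ^ 2 := Nat.one_le_pow _ _ hq
  have hC3 : 3 ≤ C := by
    rw [hC]
    calc 3 ≤ 4 * 1 * 1 * (3 + 0) := by norm_num
      _ ≤ 4 * j * q ^ 2 * (3 + q) := by gcongr <;> omega
  refine ⟨8 * q ^ 2 * j, q * q, C, Nat.mul_pos (by omega) hj, ?_⟩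
  intro R H X f F hP hF hCH hX he
  subst hP
  obtain ⟨h1, h2, h3⟩ := logs hC3 hCH hX
  obtain ⟨G, hG, h4⟩ := mx_to_mb q hq F H X hF (by omega)
  refine ⟨G, hG, h4.trans ?_⟩
  have hj0 : (1 : ℝ) ≤ j := by exact_mod_cast hj
  have hjp : (0 : ℝ) < j := by linarith
  have hq0 : (1 : ℝ) ≤ q := by exact_mod_cast hq
  have hqp : (0 : ℝ) < q := by linarith
  obtain ⟨L, hL⟩ : ∃ L : ℝ, L = Real.log X := ⟨_, rfl⟩
  obtain ⟨h, hh⟩ : ∃ h : ℝ, h = Real.log H := ⟨_, rfl⟩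
  rw [← hL] at he h2 h3 ⊢
  rw [← hh] at h1 h2 ⊢
  have hCr : (C : ℝ) = 4 * j * q ^ 2 * (3 + q) := by rw [hC]; push_cast; ring
  have hlq : Real.log q ≤ q := by
    have := Real.log_le_sub_one_of_pos hqp
    linarith
  have e1 : 1 / ((8 * q ^ 2 * j : ℕ) : ℝ) = 1 / (8 * q ^ 2 * j) := by push_cast; ring
  rw [e1] at he
  have p1 : (q : ℝ) ^ 2 * (2 * lg X (er (mx q) F H)) ≤ L / (4 * j) := by
    calc (q : ℝ) ^ 2 * (2 * lg X (er (mx q) F H)) ≤ q ^ 2 * (2 * (1 / (8 * q ^ 2 * j) * L)) := by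
          apply mul_le_mul_of_nonneg_left _ (by positivity)
          linarith
      _ = _ := by field_simp; ring
  have p2 : (q : ℝ) ^ 2 * (2 + h + Real.log q) ≤ L / (4 * j) := by
    have h5 : 2 + h + Real.log q ≤ (3 + q) * h := by nlinarith
    calc (q : ℝ) ^ 2 * (2 + h + Real.log q) ≤ q ^ 2 * ((3 + q) * h) :=
          mul_le_mul_of_nonneg_left h5 (by positivity)
      _ ≤ L / (4 * j) := by
          rw [le_div_iff₀ (by positivity)]
          calc (q : ℝ) ^ 2 * ((3 + q) * h) * (4 * j) = C * h := by rw [hCr]; ring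
            _ ≤ L := h2
  have e : L / (4 * (j : ℝ)) + L / (4 * j) = 1 / (2 * j) * L := by
    field_simp; ring
  have e2 : 1 / (2 * (j : ℝ)) * L ≤ 1 / j * L := by
    apply mul_le_mul_of_nonneg_right _ (by linarith)
    apply div_le_div_of_nonneg_left (by norm_num) hjp
    linarith
  have e3 : (q : ℝ) ^ 2 * (2 * lg X (er (mx q) F H) + 2 + h + Real.log q) =
      (q : ℝ) ^ 2 * (2 * lg X (er (mx q) F H)) + (q : ℝ) ^ 2 * (2 + h + Real.log q) := by ring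
  rw [e3]
  linarith

theorem Tr_PC (q : ℕ) (hq : 1 ≤ q) : Tr (PC q) lb :=
  Tr_trans (Tr_trans (Tr_mx q hq) (Tr_mb q hq)) Tr_lb

/-- GMC. Theorem (G) for all functions which agree on the squarefree numbers with the product of
the Möbius function and a Dirichlet character. -/
def T_GMC : Prop := ∀ (q : ℕ) (_ : 1 ≤ q) (R : ℕ → ℕ), ∃ K : ℕ, 1 ≤ K ∧ ∀ (X H : ℕ) (f : ℕ → ℂ),
  K ≤ H → H ^ K ≤ X → PC q f →
  ∃ j : ℕ, 1 ≤ j ∧ j ≤ K ∧ ∀ (b : ℕ → ℕ → ℂ) (β : ℕ → ℕ → ℝ), (∀ n r, ‖b n r‖ ≤ 1) →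
    1 / (j : ℝ) * Real.log X <
      lg X (er f (fun n m => ∑ r ∈ range (R j), b n r * ee (β n r * m)) H)

theorem gmc (hG : Pool.Agent.H93.GS.T_GFU) : T_GMC := by
  intro q hq R
  have hst : ∀ j : ℕ, ∃ J N C : ℕ, 1 ≤ J ∧ (1 ≤ j → ∀ (R H X : ℕ) (f : ℕ → ℂ)
    (F : ℕ → ℕ → ℂ), PC q f → (∀ n, Sx R (F n)) →
    C ≤ H → H ^ C ≤ X → lg X (er f F H) ≤ 1 / (J : ℝ) * Real.log X →
    ∃ G : ℕ → ℕ → ℂ, (∀ n, Sx (N * R) (G n)) ∧
      lg X (er lb G H) ≤ 1 / (j : ℝ) * Real.log X) := by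
    intro j
    rcases Nat.eq_zero_or_pos j with h | h
    · exact ⟨1, 1, 1, le_rfl, fun h1 => by omega⟩
    · obtain ⟨J, N, C, hJ, h1⟩ := Tr_PC q hq j h
      exact ⟨J, N, C, hJ, fun _ => h1⟩
  choose J N C hJ hst using hst
  obtain ⟨K₀, hK₀, hG⟩ := hG (fun j => N j * R (J j))
  obtain ⟨K, hK⟩ : ∃ K, K = K₀ + ∑ j ∈ range (K₀ + 1), (J j + C j) := ⟨_, rfl⟩
  have hKj : ∀ j ≤ K₀, J j ≤ K ∧ C j ≤ K := by
    intro j hj
    have h1 : J j + C j ≤ ∑ j ∈ range (K₀ + 1), (J j + C j) :=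
      single_le_sum (f := fun j => J j + C j) (fun _ _ => Nat.zero_le _)
        (mem_range.2 (by omega))
    omega
  refine ⟨K, by omega, ?_⟩
  intro X H f hKH hHX hf
  have hH1 : 1 ≤ H := by omega
  have hX1 : 1 ≤ X := le_trans (Nat.one_le_pow _ _ hH1) hHX
  by_contra hcon
  push Not at hcon
  have hLio := Pool.Agent.H24.EG.lio_Lio
  have hpow : ∀ c ≤ K, H ^ c ≤ X := fun c hc => (Nat.pow_le_pow_right hH1 hc).trans hHX
  obtain ⟨j, hj1, hj2, hj3⟩ := hG X H Pool.Agent.H24.EG.lio (by omega) (hpow K₀ (by omega)) hLio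
  obtain ⟨b, β, hb, h1⟩ := hcon (J j) (hJ j) (hKj j hj2).1
  obtain ⟨G, hG1, hG2⟩ := hst j hj1 (R (J j)) H X f
    (fun n m => ∑ r ∈ range (R (J j)), b n r * ee (β n r * m)) hf
    (fun n => ⟨b n, β n, hb n, fun m => rfl⟩) ((hKj j hj2).2.trans hKH)
    (hpow _ (hKj j hj2).2) h1
  choose b' β' hb' hG3 using hG1
  have h2 := hj3 b' β' hb'
  have h3 : lg X (fun n => (∑ m ∈ Ioc n (n + H),
      ‖((Pool.Agent.H24.EG.lio m : ℝ) : ℂ) - ∑ r ∈ range (N j * R (J j)),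
        b' n r * ee (β' n r * m)‖ ^ 2) / H) = lg X (er lb G H) := by
    unfold er
    congr 1
    funext n
    congr 1
    apply sum_congr rfl
    intro m _
    rw [hG3]
    congr 3
    unfold Pool.Agent.H24.EG.lio lb
    split_ifs <;> push_cast <;> rfl
  rw [h3] at h2
  linarith

/-- the window in plain words -/
theorem win_plain (f : ℕ → ℂ) (R H n : ℕ) (b : ℕ → ℂ) (β : ℕ → ℝ) :
    ∑ m ∈ Ioc n (n + H), ‖f m - ∑ r ∈ range R, (b r * ee (-(β r * n))) * ee (β r * m)‖ ^ 2 =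
      ∑ h ∈ Icc 1 H, ‖f (n + h) - ∑ r ∈ range R,
          b r * Complex.exp (2 * Real.pi * Complex.I * (β r * h))‖ ^ 2 := by
  refine Finset.sum_nbij' (fun m => m - n) (fun m => n + m) ?_ ?_ ?_ ?_ ?_
  · intro m hm; rw [Finset.mem_Ioc] at hm; rw [Finset.mem_Icc]; omega
  · intro m hm; rw [Finset.mem_Icc] at hm; rw [Finset.mem_Ioc]; omega
  · intro m hm; rw [Finset.mem_Ioc] at hm; show n + (m - n) = m; omega
  · intro m _; show n + m - n = m; omega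
  · intro m hm
    rw [Finset.mem_Ioc] at hm
    obtain ⟨k, rfl⟩ : ∃ k, m = n + k := ⟨m - n, by omega⟩
    have hk : n + k - n = k := by omega
    have h5 : ∀ r, (b r * ee (-(β r * n))) * ee (β r * ((n + k : ℕ) : ℝ)) =
        b r * Complex.exp (2 * Real.pi * Complex.I * (β r * k)) := by
      intro r
      have h6 : -(β r * n) + β r * ((n + k : ℕ) : ℝ) = β r * k := by
        push_cast
        ring
      rw [mul_assoc, ← ee_add, h6]
      unfold ee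
      congr 2
      push_cast
      ring
    simp only [h5, hk]

/-- Theorem (G) for all functions which agree on the squarefree numbers with the product of the
Möbius function and a Dirichlet character, in plain words. -/
theorem plain_gmc (hG : Pool.Agent.H93.GS.T_GFU) : ∀ (q : ℕ) [NeZero q] (R : ℕ → ℕ), ∃ K : ℕ,
    ∀ H X : ℕ, K ≤ H → H ^ K ≤ X → ∀ (χ : DirichletCharacter ℂ q) (f : ℕ → ℂ),
    (∀ n, ‖f n‖ ≤ 1) → (∀ n, Squarefree n → f n = χ n * ArithmeticFunction.moebius n) →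
    ∃ j : ℕ, 1 ≤ j ∧ j ≤ K ∧
    ∀ (b : ℕ → ℕ → ℂ) (β : ℕ → ℕ → ℝ), (∀ n r, ‖b n r‖ ≤ 1) →
      1 / (j : ℝ) * Real.log X < ∑ n ∈ Icc 1 X, 1 / (n : ℝ) * ((∑ h ∈ Icc 1 H,
        ‖f (n + h) - ∑ r ∈ range (R j),
          b n r * Complex.exp (2 * Real.pi * Complex.I * (β n r * h))‖ ^ 2) / H) := by
  intro q _ R
  obtain ⟨K, _, h⟩ := gmc hG q (NeZero.one_le) R
  refine ⟨K, fun H X hH hX χ f hf hs => ?_⟩
  obtain ⟨j, h1, h2, h3⟩ := h X H f hH hX ⟨hf, χ, fun n hn => by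
    rw [hs n hn]; rfl⟩
  refine ⟨j, h1, h2, fun b β hb => ?_⟩
  have h4 := h3 (fun n r => b n r * ee (-(β n r * n))) β (fun n r => by
    rw [norm_mul, norm_ee, mul_one]
    exact hb n r)
  refine lt_of_lt_of_le h4 (le_of_eq ?_)
  unfold lg
  refine Finset.sum_congr rfl fun n _ => ?_
  unfold er
  beta_reduce
  rw [win_plain f (R j) H n (b n) (β n), one_div, inv_mul_eq_div]

end Pool.Agent.H72.GM2
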