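import Pool.Agent.H72.GM2.Chi
import Pool.Agent.H6.G9.Targets

/-!
# Theorem (H), MP_c59857_nt, for all functions which agree on the squarefree numbers with the
product of the Möbius function and a Dirichlet character
-/

set_option autoImplicit false

open Finset Pool.Agent.H6.N4D Pool.Agent.H93.EB

namespace Pool.Agent.H72.GM2

/-- HC. Theorem (H) for all functions which agree on the squarefree numbers with the product of
the Möbius function and a Dirichlet character. -/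
def T_HC : Prop := ∀ (q : ℕ) (_ : 1 ≤ q), ∃ (c : ℝ) (K : ℕ), 0 < c ∧ 1 ≤ K ∧ ∀ R : ℕ, ∃ H₀ : ℕ,
  ∀ (X H : ℕ) (f : ℕ → ℂ), H₀ ≤ H → Real.log (Real.log X) ^ K ≤ H → H ^ K ≤ X → PC q f →
  ∀ (b : ℕ → ℕ → ℂ) (β : ℕ → ℕ → ℝ), (∀ n r, ‖b n r‖ ≤ 1) →
    c * Real.log X < lg X (er f (fun n m => ∑ r ∈ range R, b n r * ee (β n r * m)) H)

theorem hc (hG : Pool.Agent.H6.G9.T_G99) : T_HC := by
  intro q hq
  obtain ⟨c, K, hc, hK, hG⟩ := hG
  obtain ⟨j, hj⟩ : ∃ j : ℕ, j = ⌈1 / c⌉₊ + 1 := ⟨_, rfl⟩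
  have hj1 : 1 ≤ j := by omega
  have hjc : 1 / (j : ℝ) ≤ c := by
    have h1 : 1 / c ≤ (j : ℝ) := by
      rw [hj]
      push_cast
      linarith [Nat.le_ceil (1 / c)]
    rw [div_le_iff₀ (by exact_mod_cast (by omega : 0 < j))]
    rw [div_le_iff₀ hc] at h1
    linarith
  obtain ⟨J, N, C, hJ, hT⟩ := Tr_PC q hq j hj1
  refine ⟨1 / J, K + C, by positivity, by omega, ?_⟩
  intro R
  obtain ⟨H₀, hG⟩ := hG (N * R)
  refine ⟨H₀ + C + 3, ?_⟩
  intro X H f hH hl hX hf b β hb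
  have hH1 : 1 ≤ H := by omega
  have hX3 : 3 ≤ X := by
    have h1 : H ^ 1 ≤ H ^ (K + C) := Nat.pow_le_pow_right hH1 (by omega)
    rw [pow_one] at h1
    omega
  have hX3' : (3 : ℝ) ≤ X := by exact_mod_cast hX3
  have hlX : 1 ≤ Real.log X := by
    have h3 : Real.exp 1 ≤ X := by
      have := Real.exp_one_lt_d9
      linarith
    exact (Real.le_log_iff_exp_le (by linarith)).mpr h3
  have hllX : 0 ≤ Real.log (Real.log X) := Real.log_nonneg hlX
  have hl' : Real.log (Real.log X) ^ K ≤ H := by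
    rcases le_or_gt 1 (Real.log (Real.log X)) with h1 | h1
    · exact (pow_le_pow_right₀ h1 (by omega)).trans hl
    · refine (pow_le_one₀ hllX h1.le).trans ?_
      exact_mod_cast hH1
  by_contra hcon
  push Not at hcon
  obtain ⟨G, hG1, hG2⟩ := hT R H X f (fun n m => ∑ r ∈ range R, b n r * ee (β n r * m)) hf
    (fun n => ⟨b n, β n, hb n, fun m => rfl⟩) (by omega)
    ((Nat.pow_le_pow_right hH1 (by omega)).trans hX) hcon
  choose b' β' hb' hG3 using hG1
  have h2 := hG X H Pool.Agent.H24.EG.lio (by omega) hl'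
    ((Nat.pow_le_pow_right hH1 (by omega)).trans hX) Pool.Agent.H24.EG.lio_Lio b' β' hb'
  have h3 : lg X (fun n => (∑ m ∈ Ioc n (n + H),
      ‖((Pool.Agent.H24.EG.lio m : ℝ) : ℂ) - ∑ r ∈ range (N * R),
        b' n r * ee (β' n r * m)‖ ^ 2) / H) = lg X (er lb G H) := by
    unfold er
    congr 1
    funext n
    congr 1
    apply sum_congr rfl
    intro m _
    rw [hG3]
    congr 3
    unfold Pool.Agent.H24.EG.lio lb
    split_ifs <;> push_cast <;> rfl
  rw [h3] at h2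
  have h4 : 1 / (j : ℝ) * Real.log X ≤ c * Real.log X :=
    mul_le_mul_of_nonneg_right hjc (by linarith)
  linarith

/-- Theorem (H) for all functions which agree on the squarefree numbers with the product of the
Möbius function and a Dirichlet character, in plain words. -/
theorem plain_hc (hG : Pool.Agent.H6.G9.T_G99) : ∀ (q : ℕ) [NeZero q], ∃ (c : ℝ) (K : ℕ),
    0 < c ∧ ∀ R : ℕ, ∃ H₀ : ℕ, ∀ H X : ℕ, H₀ ≤ H → Real.log (Real.log X) ^ K ≤ H → H ^ K ≤ X →
    ∀ (χ : DirichletCharacter ℂ q) (f : ℕ → ℂ),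
    (∀ n, ‖f n‖ ≤ 1) → (∀ n, Squarefree n → f n = χ n * ArithmeticFunction.moebius n) →
    ∀ (b : ℕ → ℕ → ℂ) (β : ℕ → ℕ → ℝ), (∀ n r, ‖b n r‖ ≤ 1) →
      c * Real.log X < ∑ n ∈ Icc 1 X, 1 / (n : ℝ) * ((∑ h ∈ Icc 1 H,
        ‖f (n + h) - ∑ r ∈ range R,
          b n r * Complex.exp (2 * Real.pi * Complex.I * (β n r * h))‖ ^ 2) / H) := by
  intro q _
  obtain ⟨c, K, hc, _, h⟩ := hc hG q (NeZero.one_le)
  refine ⟨c, K, hc, fun R => ?_⟩
  obtain ⟨H₀, h⟩ := h R
  refine ⟨H₀, fun H X hH hl hX χ f hf hs b β hb => ?_⟩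
  have h4 := h X H f hH hl hX ⟨hf, χ, fun n hn => by rw [hs n hn]; rfl⟩
    (fun n r => b n r * ee (-(β n r * n))) β (fun n r => by
      rw [norm_mul, norm_ee, mul_one]
      exact hb n r)
  refine lt_of_lt_of_le h4 (le_of_eq ?_)
  unfold lg
  refine Finset.sum_congr rfl fun n _ => ?_
  unfold er
  beta_reduce
  rw [win_plain f R H n (b n) (β n), one_div, inv_mul_eq_div]

/-- a function of the class which agrees with Liouville's function -/
lemma cls_lb : PC 1 lb := by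
  refine ⟨fun n => ?_, 1, fun n hn => ?_⟩
  · unfold lb
    split_ifs
    · simp
    · rw [norm_pow, norm_neg, norm_one, one_pow]
  · have hn0 : n ≠ 0 := hn.ne_zero
    have h1 : (1 : DirichletCharacter ℂ 1) n = 1 := by
      have : (n : ZMod 1) = 1 := Subsingleton.elim _ _
      rw [this, map_one]
    rw [h1, one_mul]
    unfold lb mb
    rw [if_neg hn0, ArithmeticFunction.moebius_apply_of_squarefree hn]
    push_cast
    rfl

lemma cls_mb : PC 1 mb := by
  refine ⟨norm_mb_le, 1, fun n hn => ?_⟩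
  have h1 : (1 : DirichletCharacter ℂ 1) n = 1 := by
    have : (n : ZMod 1) = 1 := Subsingleton.elim _ _
    rw [this, map_one]
  rw [h1, one_mul]

end Pool.Agent.H72.GM2
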