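import Pool.Agent.H72.GM2.Mu
import Pool.Agent.H93.GS.Asm
import Pool.Agent.H24.EG.Fin

/-!
# Theorem (G), MP_c59857_nt, for all functions which agree with the Möbius function on the
squarefree numbers: the theorem
-/

set_option autoImplicit false

open Finset Pool.Agent.H6.N4D Pool.Agent.H93.EB

namespace Pool.Agent.H72.GM2

/-- from `f` to the Möbius function -/
theorem f_to_mb {R : ℕ} (f : ℕ → ℂ) (hf : ∀ n, ‖f n‖ ≤ 1) (hs : ∀ n, Squarefree n → f n = mb n)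
    (F : ℕ → ℕ → ℂ) (D H X : ℕ) (hF : ∀ n, Sx R (F n)) (hD : 1 ≤ D) (hH : 1 ≤ H) :
    ∃ G : ℕ → ℕ → ℂ, (∀ n, Sx (D.factorial ^ 2 * R) (G n)) ∧
      lg X (er mb G H) ≤ 2 * lg X (er f F H) +
        2 * (1 / D * (1 + Real.log X) + 1 + Real.log H) := by
  have hH0 : (0 : ℝ) < H := by exact_mod_cast hH
  refine ⟨fun n m => sf D m * F n m, fun n => Sx_per (hF n) (D.factorial ^ 2)
    (Nat.one_le_pow _ _ (Nat.factorial_pos D)) (sf D) (norm_sf_le D) (sf_per D), ?_⟩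
  have h1 := lg_tl_win D H X hD hH
  have h2 : lg X (er mb (fun n m => sf D m * F n m) H) ≤
      lg X (fun n => 2 * er f F H n + 2 * ((∑ m ∈ Ioc n (n + H), tl D m) / H)) := by
    apply lg_mono
    intro n _
    unfold er
    have h3 : ∑ m ∈ Ioc n (n + H), ‖mb m - sf D m * F n m‖ ^ 2 ≤
        ∑ m ∈ Ioc n (n + H), (2 * ‖f m - F n m‖ ^ 2 + 2 * tl D m) := by
      apply sum_le_sum
      intro m hm
      exact mb_dec f hf hs _ D m (by have := (mem_Ioc.1 hm).1; omega)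
    rw [sum_add_distrib, ← mul_sum, ← mul_sum] at h3
    have h4 := div_le_div_of_nonneg_right h3 hH0.le
    refine h4.trans (le_of_eq ?_)
    ring
  rw [lg_add, lg_mul, lg_mul] at h2
  linarith

/-- from the Möbius function to Liouville's function -/
theorem mb_to_lb {R : ℕ} (F : ℕ → ℕ → ℂ) (D H X : ℕ) (hF : ∀ n, Sx R (F n)) (hD : 1 ≤ D)
    (hH : 1 ≤ H) :
    ∃ G : ℕ → ℕ → ℂ, (∀ n, Sx (D * (D ^ 2 * R)) (G n)) ∧
      lg X (er lb G H) ≤ 2 * D ^ 2 * (2 * lg X (er mb F H) + 2 + Real.log H + 2 * Real.log D) +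
        2 * (1 / D * (1 + Real.log X) + 1 + Real.log H) := by
  have hH0 : (0 : ℝ) < H := by exact_mod_cast hH
  have hD0 : (0 : ℝ) < D := by exact_mod_cast hD
  have hex : ∀ i, ∃ G : ℕ → ℕ → ℂ, i < D → ((∀ n, Sx (D ^ 2 * R) (G n)) ∧
      lg X (er (fun m => if (i + 1) ^ 2 ∣ m then mb (m / (i + 1) ^ 2) else 0) G H) ≤
        2 * lg X (er mb F H) + 2 + Real.log H + 2 * Real.log D) := by
    intro i
    by_cases hi : i < D
    · obtain ⟨d, hd⟩ : ∃ d, d = (i + 1) ^ 2 := ⟨_, rfl⟩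
      have hd1 : 1 ≤ d := by rw [hd]; exact Nat.one_le_pow _ _ (by omega)
      have hdD : d ≤ D ^ 2 := by rw [hd]; exact Nat.pow_le_pow_left (by omega) 2
      rw [← hd]
      have h1 : 1 ≤ (H + d - 1) / d := (Nat.one_le_div_iff hd1).2 (by omega)
      have h2 : (H + d - 1) / d ≤ H := by
        apply Nat.div_le_of_le_mul
        obtain ⟨k, rfl⟩ := Nat.exists_eq_add_of_le hH
        obtain ⟨l, hl⟩ := Nat.exists_eq_add_of_le hd1
        rw [hl]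
        have : (1 + l) * (1 + k) = 1 + k + (1 + l) - 1 + l * k := by
          have : 1 + k + (1 + l) - 1 = 1 + k + l := by omega
          rw [this]; ring
        rw [this]; omega
      obtain ⟨F', hF', h3⟩ := rst mb F H ((H + d - 1) / d) X hF norm_mb_le h1 h2
      obtain ⟨G, hG, h4⟩ := dil mb F' H d X hF' norm_mb_le hH hd1
      refine ⟨G, fun _ => ⟨fun n => Sx_mono (Nat.mul_le_mul_right R hdD) (hG n), ?_⟩⟩
      have h5 : Real.log d ≤ 2 * Real.log D := by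
        have h6 := Real.log_le_log (by exact_mod_cast hd1 : (0 : ℝ) < d)
          (by exact_mod_cast hdD : (d : ℝ) ≤ (D : ℝ) ^ 2)
        rw [Real.log_pow] at h6
        push_cast at h6
        exact h6
      linarith
    · exact ⟨fun _ _ => 0, fun h => absurd h hi⟩
  choose G hG using hex
  refine ⟨fun n m => ∑ i ∈ range D, G i n m, fun n => Sx_sum D fun i hi => (hG i hi).1 n, ?_⟩
  have h1 := lg_tl_win D H X hD hH
  have h2 : lg X (er lb (fun n m => ∑ i ∈ range D, G i n m) H) ≤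
      lg X (fun n => 2 * D * ∑ i ∈ range D,
        er (fun m => if (i + 1) ^ 2 ∣ m then mb (m / (i + 1) ^ 2) else 0) (G i) H n +
        2 * ((∑ m ∈ Ioc n (n + H), tl D m) / H)) := by
    apply lg_mono
    intro n _
    unfold er
    have h3 : ∑ m ∈ Ioc n (n + H), ‖lb m - ∑ i ∈ range D, G i n m‖ ^ 2 ≤
        ∑ m ∈ Ioc n (n + H), (2 * D * ∑ i ∈ range D,
          ‖(if (i + 1) ^ 2 ∣ m then mb (m / (i + 1) ^ 2) else 0) - G i n m‖ ^ 2 +
          2 * tl D m) := by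
      apply sum_le_sum
      intro m hm
      have h4 := lb_dec D m (by have := (mem_Ioc.1 hm).1; omega)
      have h5 : lb m - ∑ i ∈ range D, G i n m =
          (lb m - ∑ i ∈ range D, (if (i + 1) ^ 2 ∣ m then mb (m / (i + 1) ^ 2) else 0)) +
          ∑ i ∈ range D, ((if (i + 1) ^ 2 ∣ m then mb (m / (i + 1) ^ 2) else 0) - G i n m) := by
        rw [sum_sub_distrib]; ring
      obtain ⟨u, hu⟩ : ∃ u : ℂ, u =
        lb m - ∑ i ∈ range D, (if (i + 1) ^ 2 ∣ m then mb (m / (i + 1) ^ 2) else 0) := ⟨_, rfl⟩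
      obtain ⟨v, hv⟩ : ∃ v : ℕ → ℂ, v = fun i =>
        (if (i + 1) ^ 2 ∣ m then mb (m / (i + 1) ^ 2) else 0) - G i n m := ⟨_, rfl⟩
      have h6 : ∑ i ∈ range D, ((if (i + 1) ^ 2 ∣ m then mb (m / (i + 1) ^ 2) else 0) -
          G i n m) = ∑ i ∈ range D, v i := by rw [hv]
      have h7 : ∑ i ∈ range D, ‖(if (i + 1) ^ 2 ∣ m then mb (m / (i + 1) ^ 2) else 0) -
          G i n m‖ ^ 2 = ∑ i ∈ range D, ‖v i‖ ^ 2 := by rw [hv]
      rw [h5, ← hu, h6, h7]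
      rw [← hu] at h4
      have h8 : ‖∑ i ∈ range D, v i‖ ^ 2 ≤ D * ∑ i ∈ range D, ‖v i‖ ^ 2 := by
        calc ‖∑ i ∈ range D, v i‖ ^ 2 ≤ (∑ i ∈ range D, ‖v i‖) ^ 2 :=
              pow_le_pow_left₀ (norm_nonneg _) (norm_sum_le _ _) 2
          _ ≤ (range D).card * ∑ i ∈ range D, ‖v i‖ ^ 2 := sq_sum_le_card_mul_sum_sq
          _ = _ := by rw [card_range]
      have h9 : ‖u‖ ^ 2 ≤ tl D m := by
        rw [← tl_sq D m]
        exact pow_le_pow_left₀ (norm_nonneg _) h4 2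
      have h10 : ‖u + ∑ i ∈ range D, v i‖ ^ 2 ≤ 2 * ‖u‖ ^ 2 + 2 * ‖∑ i ∈ range D, v i‖ ^ 2 := by
        have h11 := norm_add_le u (∑ i ∈ range D, v i)
        have h12 := pow_le_pow_left₀ (norm_nonneg _) h11 2
        nlinarith [sq_nonneg (‖u‖ - ‖∑ i ∈ range D, v i‖)]
      linarith
    rw [sum_add_distrib, ← mul_sum, ← mul_sum, sum_comm] at h3
    have h4 := div_le_div_of_nonneg_right h3 hH0.le
    refine h4.trans (le_of_eq ?_)
    rw [add_div, mul_div_assoc, sum_div, mul_div_assoc]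
  rw [lg_add, lg_mul, lg_mul, lg_sum] at h2
  have h3 : ∑ i ∈ range D, lg X (fun n =>
      er (fun m => if (i + 1) ^ 2 ∣ m then mb (m / (i + 1) ^ 2) else 0) (G i) H n) ≤
      D * (2 * lg X (er mb F H) + 2 + Real.log H + 2 * Real.log D) := by
    calc _ ≤ ∑ _i ∈ range D, (2 * lg X (er mb F H) + 2 + Real.log H + 2 * Real.log D) :=
          sum_le_sum fun i hi => (hG i (mem_range.1 hi)).2
      _ = _ := by rw [sum_const, card_range, nsmul_eq_mul]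
  have h4 : 2 * (D : ℝ) * ∑ i ∈ range D, lg X (fun n =>
      er (fun m => if (i + 1) ^ 2 ∣ m then mb (m / (i + 1) ^ 2) else 0) (G i) H n) ≤
      2 * D * (D * (2 * lg X (er mb F H) + 2 + Real.log H + 2 * Real.log D)) :=
    mul_le_mul_of_nonneg_left h3 (by positivity)
  have h5 : 2 * (D : ℝ) * (D * (2 * lg X (er mb F H) + 2 + Real.log H + 2 * Real.log D)) =
      2 * D ^ 2 * (2 * lg X (er mb F H) + 2 + Real.log H + 2 * Real.log D) := by ring
  linarith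

/-- from `f` to Liouville's function, with the numbers -/
theorem step (j : ℕ) (hj : 1 ≤ j) : ∃ J N C : ℕ, 1 ≤ J ∧ ∀ (R H X : ℕ) (f : ℕ → ℂ)
    (F : ℕ → ℕ → ℂ), (∀ n, ‖f n‖ ≤ 1) → (∀ n, Squarefree n → f n = mb n) → (∀ n, Sx R (F n)) →
    C ≤ H → H ^ C ≤ X → lg X (er f F H) ≤ 1 / (J : ℝ) * Real.log X →
    ∃ G : ℕ → ℕ → ℂ, (∀ n, Sx (N * R) (G n)) ∧
      lg X (er lb G H) ≤ 1 / (j : ℝ) * Real.log X := by
  obtain ⟨D, hD⟩ : ∃ D, D = 16 * j := ⟨_, rfl⟩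
  obtain ⟨D', hD'⟩ : ∃ D', D' = 128 * j * D ^ 2 := ⟨_, rfl⟩
  obtain ⟨C, hC⟩ : ∃ C, C = 60 * j * D ^ 3 := ⟨_, rfl⟩
  have hD1 : 1 ≤ D := by omega
  have hD'1 : 1 ≤ D' := by rw [hD']; exact Nat.mul_pos (by omega) (by positivity)
  have hC1 : 3 ≤ C := by
    rw [hC]
    have : 1 ≤ D ^ 3 := Nat.one_le_pow _ _ hD1
    calc 3 ≤ 60 * j * 1 := by omega
      _ ≤ 60 * j * D ^ 3 := Nat.mul_le_mul_left _ this
  refine ⟨64 * j * D ^ 2, D * (D ^ 2 * D'.factorial ^ 2), C,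
    Nat.mul_pos (by omega) (by positivity), ?_⟩
  intro R H X f F hf hs hF hCH hHX he
  have hH1 : 1 ≤ H := by omega
  obtain ⟨G₁, hG₁, h1⟩ := f_to_mb f hf hs F D' H X hF hD'1 hH1
  obtain ⟨G₂, hG₂, h2⟩ := mb_to_lb G₁ D H X hG₁ hD1 hH1
  refine ⟨G₂, fun n => ?_, ?_⟩
  · have e : D * (D ^ 2 * D'.factorial ^ 2) * R = D * (D ^ 2 * (D'.factorial ^ 2 * R)) := by ring
    rw [e]; exact hG₂ n
  -- the numbers
  have hH3 : (3 : ℝ) ≤ H := by exact_mod_cast (by omega : 3 ≤ H)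
  have hlH : 1 ≤ Real.log H := by
    have h3 : Real.exp 1 ≤ H := by
      have := Real.exp_one_lt_d9
      linarith
    exact (Real.le_log_iff_exp_le (by linarith)).mpr h3
  obtain ⟨L, hL⟩ : ∃ L : ℝ, L = Real.log X := ⟨_, rfl⟩
  obtain ⟨h, hh⟩ : ∃ h : ℝ, h = Real.log H := ⟨_, rfl⟩
  have hCL : (C : ℝ) * h ≤ L := by
    have h3 := Real.log_le_log (by positivity : (0 : ℝ) < (H : ℝ) ^ C)
      (by exact_mod_cast hHX : (H : ℝ) ^ C ≤ X)
    rw [Real.log_pow] at h3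
    rw [hL, hh]; exact h3
  rw [← hL] at h1 h2 he ⊢
  rw [← hh] at h1 h2 hlH
  have hDr : (D : ℝ) = 16 * j := by rw [hD]; push_cast; ring
  have hD'r : (D' : ℝ) = 128 * j * D ^ 2 := by rw [hD']; push_cast; ring
  have hCr : (C : ℝ) = 60 * j * D ^ 3 := by rw [hC]; push_cast; ring
  have hj0 : (1 : ℝ) ≤ j := by exact_mod_cast hj
  have hjp : (0 : ℝ) < j := by linarith
  have hD16 : (16 : ℝ) ≤ D := by rw [hDr]; linarith
  have hDp : (0 : ℝ) < D := by linarith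
  have hlD : Real.log D ≤ D := by
    have := Real.log_le_sub_one_of_pos hDp
    linarith
  have hL1 : 1 ≤ L := by
    have h3 : (1 : ℝ) ≤ C := by exact_mod_cast (by omega : 1 ≤ C)
    nlinarith
  have e1 : 1 / ((64 * j * D ^ 2 : ℕ) : ℝ) = 1 / (64 * j * D ^ 2) := by push_cast; ring
  rw [e1] at he
  -- the parts
  have p1 : 8 * (D : ℝ) ^ 2 * lg X (er f F H) ≤ L / (8 * j) := by
    calc 8 * (D : ℝ) ^ 2 * lg X (er f F H) ≤ 8 * D ^ 2 * (1 / (64 * j * D ^ 2) * L) :=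
          mul_le_mul_of_nonneg_left he (by positivity)
      _ = L / (8 * j) := by field_simp; ring
  have p2 : 8 * (D : ℝ) ^ 2 * (1 / D' * (1 + L)) ≤ L / (8 * j) := by
    calc 8 * (D : ℝ) ^ 2 * (1 / D' * (1 + L)) ≤ 8 * D ^ 2 * (1 / D' * (2 * L)) := by
          apply mul_le_mul_of_nonneg_left _ (by positivity)
          apply mul_le_mul_of_nonneg_left _ (by positivity)
          linarith
      _ = L / (8 * j) := by rw [hD'r]; field_simp; ring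
  have p3 : 2 * (1 / (D : ℝ) * (1 + L)) ≤ L / (4 * j) := by
    calc 2 * (1 / (D : ℝ) * (1 + L)) ≤ 2 * (1 / (D : ℝ) * (2 * L)) := by
          apply mul_le_mul_of_nonneg_left _ (by positivity)
          apply mul_le_mul_of_nonneg_left _ (by positivity)
          linarith
      _ = L / (4 * j) := by rw [hDr]; field_simp; ring
  have p4 : 8 * (D : ℝ) ^ 2 * (1 + h) + 2 * D ^ 2 * (2 + h + 2 * Real.log D) + 2 * (1 + h) ≤
      L / (2 * j) := by
    have h3 : 8 * (D : ℝ) ^ 2 * (1 + h) + 2 * D ^ 2 * (2 + h + 2 * Real.log D) + 2 * (1 + h) ≤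
        30 * D ^ 3 * h := by
      have h4 : 2 * (D : ℝ) ^ 2 * (2 + h + 2 * Real.log D) ≤ 2 * D ^ 2 * (2 + h + 2 * D) := by
        apply mul_le_mul_of_nonneg_left _ (by positivity)
        linarith
      have h5 : (D : ℝ) ^ 2 ≤ D ^ 3 / 16 := by
        rw [pow_succ (D : ℝ) 2]
        nlinarith [sq_nonneg (D : ℝ), mul_le_mul_of_nonneg_left hD16 (sq_nonneg (D : ℝ))]
      have h6 : (1 : ℝ) ≤ D ^ 3 := one_le_pow₀ (by linarith)
      have h7 : (0 : ℝ) ≤ D ^ 2 := sq_nonneg _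
      have h8 : (D : ℝ) ^ 3 ≤ D ^ 3 * h := le_mul_of_one_le_right (by positivity) hlH
      have h9 : (D : ℝ) ^ 2 * h ≤ D ^ 3 / 16 * h := mul_le_mul_of_nonneg_right h5 (by linarith)
      have h10 : h ≤ D ^ 3 * h := le_mul_of_one_le_left (by linarith) h6
      have h11 : 2 * (D : ℝ) ^ 2 * (2 + h + 2 * D) = 4 * D ^ 2 + 2 * (D ^ 2 * h) + 4 * D ^ 3 := by
        ring
      have h12 : 8 * (D : ℝ) ^ 2 * (1 + h) = 8 * D ^ 2 + 8 * (D ^ 2 * h) := by ring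
      have h13 : 30 * (D : ℝ) ^ 3 * h = 30 * (D ^ 3 * h) := by ring
      rw [h13]
      linarith
    refine h3.trans ?_
    rw [le_div_iff₀ (by positivity)]
    calc 30 * (D : ℝ) ^ 3 * h * (2 * j) = C * h := by rw [hCr]; ring
      _ ≤ L := hCL
  have p5 : 2 * (D : ℝ) ^ 2 * (2 * lg X (er mb G₁ H)) ≤
      2 * D ^ 2 * (2 * (2 * lg X (er f F H) + 2 * (1 / D' * (1 + L) + 1 + h))) := by
    apply mul_le_mul_of_nonneg_left _ (by positivity)
    linarith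
  have e2 : L / (8 * (j : ℝ)) + L / (8 * j) + L / (4 * j) + L / (2 * j) = 1 / j * L := by
    field_simp; ring
  have e3 : 2 * (D : ℝ) ^ 2 * (2 * lg X (er mb G₁ H) + 2 + h + 2 * Real.log D) =
      2 * (D : ℝ) ^ 2 * (2 * lg X (er mb G₁ H)) + 2 * D ^ 2 * (2 + h + 2 * Real.log D) := by ring
  have e4 : 2 * (D : ℝ) ^ 2 * (2 * (2 * lg X (er f F H) + 2 * (1 / D' * (1 + L) + 1 + h))) =
      8 * (D : ℝ) ^ 2 * lg X (er f F H) + 8 * (D : ℝ) ^ 2 * (1 / D' * (1 + L)) +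
        8 * (D : ℝ) ^ 2 * (1 + h) := by ring
  rw [e3] at h2
  linarith

/-- GMB. Theorem (G) for all functions which agree with the Möbius function on the squarefree
numbers. -/
def T_GMB : Prop := ∀ R : ℕ → ℕ, ∃ K : ℕ, 1 ≤ K ∧ ∀ (X H : ℕ) (f : ℕ → ℂ), K ≤ H →
  H ^ K ≤ X → (∀ n, ‖f n‖ ≤ 1) → (∀ n, Squarefree n → f n = mb n) →
  ∃ j : ℕ, 1 ≤ j ∧ j ≤ K ∧ ∀ (b : ℕ → ℕ → ℂ) (β : ℕ → ℕ → ℝ), (∀ n r, ‖b n r‖ ≤ 1) →
    1 / (j : ℝ) * Real.log X <
      lg X (er f (fun n m => ∑ r ∈ range (R j), b n r * ee (β n r * m)) H)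

theorem gmb (hG : Pool.Agent.H93.GS.T_GFU) : T_GMB := by
  intro R
  have hst : ∀ j : ℕ, ∃ J N C : ℕ, 1 ≤ J ∧ (1 ≤ j → ∀ (R H X : ℕ) (f : ℕ → ℂ)
    (F : ℕ → ℕ → ℂ), (∀ n, ‖f n‖ ≤ 1) → (∀ n, Squarefree n → f n = mb n) → (∀ n, Sx R (F n)) →
    C ≤ H → H ^ C ≤ X → lg X (er f F H) ≤ 1 / (J : ℝ) * Real.log X →
    ∃ G : ℕ → ℕ → ℂ, (∀ n, Sx (N * R) (G n)) ∧
      lg X (er lb G H) ≤ 1 / (j : ℝ) * Real.log X) := by
    intro j
    rcases Nat.eq_zero_or_pos j with h | h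
    · exact ⟨1, 1, 1, le_rfl, fun h1 => by omega⟩
    · obtain ⟨J, N, C, hJ, h1⟩ := step j h
      exact ⟨J, N, C, hJ, fun _ => h1⟩
  choose J N C hJ hst using hst
  obtain ⟨K₀, hK₀, hG⟩ := hG (fun j => N j * R (J j))
  obtain ⟨K, hK⟩ : ∃ K, K = K₀ + ∑ j ∈ range (K₀ + 1), (J j + C j) := ⟨_, rfl⟩
  have hKj : ∀ j ≤ K₀, J j ≤ K ∧ C j ≤ K := by
    intro j hj
    have h1 : J j + C j ≤ ∑ j ∈ range (K₀ + 1), (J j + C j) :=
      single_le_sum (f := fun j => J j + C j) (fun _ _ => Nat.zero_le _)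
        (mem_range.2 (by omega))
    omega
  refine ⟨K, by omega, ?_⟩
  intro X H f hKH hHX hf hs
  have hH1 : 1 ≤ H := by omega
  have hX1 : 1 ≤ X := le_trans (Nat.one_le_pow _ _ hH1) hHX
  by_contra hcon
  push Not at hcon
  have hLio := Pool.Agent.H24.EG.lio_Lio
  have hpow : ∀ c ≤ K, H ^ c ≤ X := fun c hc => (Nat.pow_le_pow_right hH1 hc).trans hHX
  obtain ⟨j, hj1, hj2, hj3⟩ := hG X H Pool.Agent.H24.EG.lio (by omega) (hpow K₀ (by omega)) hLio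
  obtain ⟨b, β, hb, h1⟩ := hcon (J j) (hJ j) (hKj j hj2).1
  obtain ⟨G, hG1, hG2⟩ := hst j hj1 (R (J j)) H X f
    (fun n m => ∑ r ∈ range (R (J j)), b n r * ee (β n r * m)) hf hs
    (fun n => ⟨b n, β n, hb n, fun m => rfl⟩) ((hKj j hj2).2.trans hKH)
    (hpow _ (hKj j hj2).2) h1
  choose b' β' hb' hG3 using hG1
  have h2 := hj3 b' β' hb'
  have h3 : lg X (fun n => (∑ m ∈ Ioc n (n + H),
      ‖((Pool.Agent.H24.EG.lio m : ℝ) : ℂ) - ∑ r ∈ range (N j * R (J j)),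
        b' n r * ee (β' n r * m)‖ ^ 2) / H) = lg X (er lb G H) := by
    unfold er
    congr 1
    funext n
    congr 1
    apply sum_congr rfl
    intro m _
    rw [hG3]
    congr 3
    unfold Pool.Agent.H24.EG.lio lb
    split_ifs <;> push_cast <;> rfl
  rw [h3] at h2
  linarith

end Pool.Agent.H72.GM2
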