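import Pool.Agent.H72.GM2.Win
import Pool.Agent.H72.GS2.LVG

/-!
# Theorem (G), MP_c59857_nt, for all functions which agree with the Möbius function on the
squarefree numbers: from such a function to Liouville's function
-/

set_option autoImplicit false

open Finset Pool.Agent.H6.N4D Pool.Agent.H93.EB

namespace Pool.Agent.H72.GM2

/-- the Möbius function, complex values -/
noncomputable def mb (n : ℕ) : ℂ := ((ArithmeticFunction.moebius n : ℤ) : ℂ)

/-- Liouville's function, complex values, `1` at zero -/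
noncomputable def lb (n : ℕ) : ℂ := if n = 0 then 1 else (-1) ^ ArithmeticFunction.cardFactors n

open Classical in
/-- numbers with a large square divisor -/
noncomputable def tl (D m : ℕ) : ℝ := if ∃ d, D < d ∧ d ^ 2 ∣ m then 1 else 0

lemma tl_nonneg (D m : ℕ) : 0 ≤ tl D m := by unfold tl; split_ifs <;> norm_num

lemma tl_le_one (D m : ℕ) : tl D m ≤ 1 := by unfold tl; split_ifs <;> norm_num

lemma tl_sq (D m : ℕ) : tl D m ^ 2 = tl D m := by unfold tl; split_ifs <;> norm_num

lemma norm_mb_le (n : ℕ) : ‖mb n‖ ≤ 1 := by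
  unfold mb
  by_cases h : Squarefree n
  · rw [ArithmeticFunction.moebius_apply_of_squarefree h]
    push_cast
    rw [norm_pow, norm_neg, norm_one, one_pow]
  · rw [ArithmeticFunction.moebius_eq_zero_of_not_squarefree h]
    simp

/-- the logarithmic density of the numbers with a large square divisor -/
lemma lg_tl (D X : ℕ) (hD : 1 ≤ D) : lg X (tl D) ≤ 1 / D * (1 + Real.log X) := by
  have hD0 : (0 : ℝ) < D := by exact_mod_cast hD
  have h0 : 0 ≤ 1 + Real.log X := by
    rcases Nat.eq_zero_or_pos X with h | h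
    · subst h; simp
    · have : 0 ≤ Real.log X := Real.log_nonneg (by exact_mod_cast h)
      linarith
  have h1 : lg X (tl D) ≤ ∑ m ∈ Icc 1 X, ∑ d ∈ Ioc D X, (if d ^ 2 ∣ m then (1 : ℝ) / m else 0) := by
    unfold lg
    apply sum_le_sum
    intro m hm
    have hm' := mem_Icc.1 hm
    have hnn : ∀ d ∈ Ioc D X, 0 ≤ (if d ^ 2 ∣ m then (1 : ℝ) / m else 0) := fun d _ => by
      split_ifs <;> positivity
    unfold tl
    split_ifs with h
    · obtain ⟨d, hd1, hd2⟩ := h
      have hd3 : d ≤ X := by
        have h2 := Nat.le_of_dvd (by omega) hd2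
        have h3 : d ≤ d ^ 2 := Nat.le_self_pow (by norm_num) d
        omega
      calc (1 : ℝ) / m = (if d ^ 2 ∣ m then (1 : ℝ) / m else 0) := by rw [if_pos hd2]
        _ ≤ _ := single_le_sum (f := fun d => if d ^ 2 ∣ m then (1 : ℝ) / m else 0) hnn
            (mem_Ioc.2 ⟨hd1, hd3⟩)
    · rw [zero_div]; exact sum_nonneg hnn
  refine h1.trans ?_
  rw [sum_comm]
  have h2 : ∀ d ∈ Ioc D X, ∑ m ∈ Icc 1 X, (if d ^ 2 ∣ m then (1 : ℝ) / m else 0) ≤
      ((d : ℝ) ^ 2)⁻¹ * (1 + Real.log X) := by
    intro d hd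
    have hd0 : 0 < d := by have := (mem_Ioc.1 hd).1; omega
    have hdr : (0 : ℝ) < d := by exact_mod_cast hd0
    rw [← sum_filter]
    calc ∑ m ∈ (Icc 1 X).filter (fun m => d ^ 2 ∣ m), (1 : ℝ) / m
        = ∑ k ∈ Icc 1 (X / d ^ 2), (1 : ℝ) / ((d ^ 2 * k : ℕ) : ℝ) := by
          apply sum_nbij' (fun m => m / d ^ 2) (fun k => d ^ 2 * k)
          · intro m hm
            rw [mem_filter, mem_Icc] at hm
            obtain ⟨⟨h3, h4⟩, k, rfl⟩ := hm
            show d ^ 2 * k / d ^ 2 ∈ Icc 1 (X / d ^ 2)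
            rw [Nat.mul_div_cancel_left _ (by positivity), mem_Icc]
            refine ⟨Nat.pos_of_ne_zero fun h => by rw [h] at h3; simp at h3, ?_⟩
            rw [Nat.le_div_iff_mul_le (by positivity), mul_comm]
            exact h4
          · intro k hk
            rw [mem_Icc] at hk
            rw [mem_filter, mem_Icc]
            have h5 : d ^ 2 * k ≤ X := by
              rw [mul_comm, ← Nat.le_div_iff_mul_le (by positivity)]
              exact hk.2
            exact ⟨⟨Nat.mul_pos (by positivity) hk.1, h5⟩, dvd_mul_right _ _⟩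
          · intro m hm
            rw [mem_filter] at hm
            exact Nat.mul_div_cancel' hm.2
          · intro k _
            exact Nat.mul_div_cancel_left _ (by positivity)
          · intro m hm
            rw [mem_filter] at hm
            rw [Nat.mul_div_cancel' hm.2]
      _ = ((d : ℝ) ^ 2)⁻¹ * hs (X / d ^ 2) := by
          unfold hs
          rw [mul_sum]
          apply sum_congr rfl
          intro k _
          push_cast
          rw [one_div, mul_inv, one_div]
      _ ≤ ((d : ℝ) ^ 2)⁻¹ * (1 + Real.log X) := by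
          apply mul_le_mul_of_nonneg_left _ (by positivity)
          exact (hs_mono (Nat.div_le_self _ _)).trans (hs_le X)
  refine (sum_le_sum h2).trans ?_
  rw [← sum_mul]
  apply mul_le_mul_of_nonneg_right _ h0
  rcases le_or_gt D X with h | h
  · have h3 := sum_Ioc_inv_sq_le_sub (α := ℝ) (by omega : D ≠ 0) h
    have h4 : 0 ≤ ((X : ℝ))⁻¹ := by positivity
    rw [one_div]
    linarith
  · rw [Ioc_eq_empty (by omega), sum_empty]
    positivity

/-- the same for windows -/
lemma lg_tl_win (D H X : ℕ) (hD : 1 ≤ D) (hH : 1 ≤ H) :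
    lg X (fun n => (∑ m ∈ Ioc n (n + H), tl D m) / H) ≤
      1 / D * (1 + Real.log X) + 1 + Real.log H := by
  have hH0 : (0 : ℝ) < H := by exact_mod_cast hH
  have e : (fun n => (∑ m ∈ Ioc n (n + H), tl D m) / H) =
      fun n => 1 / (H : ℝ) * ∑ h ∈ Icc 1 H, tl D (n + h) := by
    funext n
    have h1 : ∑ m ∈ Ioc n (n + H), tl D m = ∑ h ∈ Icc 1 H, tl D (n + h) := by
      apply sum_nbij' (fun m => m - n) (fun h => n + h)
      · intro m hm; rw [mem_Ioc] at hm; rw [mem_Icc]; omega
      · intro h hh; rw [mem_Icc] at hh; rw [mem_Ioc]; omega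
      · intro m hm; rw [mem_Ioc] at hm; show n + (m - n) = m; omega
      · intro h _; show n + h - n = h; omega
      · intro m hm
        rw [mem_Ioc] at hm
        have : n + (m - n) = m := by omega
        rw [this]
    rw [h1]; ring
  rw [e, lg_mul, lg_sum]
  have h2 : ∑ h ∈ Icc 1 H, lg X (fun n => tl D (n + h)) ≤
      ∑ _h ∈ Icc 1 H, (1 / D * (1 + Real.log X) + 1 + Real.log H) := by
    apply sum_le_sum
    intro h hh
    have hh' := mem_Icc.1 hh
    have h3 := Pool.Agent.H72.GS2.lg_shift_one X h (tl D) 1 (tl_nonneg D) (tl_le_one D)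
    have h4 := hs_mono hh'.2
    have h5 := hs_le H
    have h6 := lg_tl D X hD
    linarith
  rw [sum_const, Nat.card_Icc, Nat.add_sub_cancel, nsmul_eq_mul] at h2
  calc 1 / (H : ℝ) * ∑ h ∈ Icc 1 H, lg X (fun n => tl D (n + h)) ≤
      1 / (H : ℝ) * (H * (1 / D * (1 + Real.log X) + 1 + Real.log H)) :=
        mul_le_mul_of_nonneg_left h2 (by positivity)
    _ = _ := by field_simp

/-- the decomposition of Liouville's function -/
lemma lb_dec (D m : ℕ) (hm : 1 ≤ m) :
    ‖lb m - ∑ i ∈ range D, (if (i + 1) ^ 2 ∣ m then mb (m / (i + 1) ^ 2) else 0)‖ ≤ tl D m := by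
  obtain ⟨a, b, ha, hb, hab, hsq⟩ := Nat.sq_mul_squarefree_of_pos (by omega : 0 < m)
  have hlb : lb m = mb a := by
    unfold lb mb
    rw [if_neg (by omega), ArithmeticFunction.moebius_apply_of_squarefree hsq, ← hab,
      ArithmeticFunction.cardFactors_mul (by positivity) (by omega),
      ArithmeticFunction.cardFactors_pow]
    push_cast
    rw [pow_add, pow_mul]
    norm_num
  -- uniqueness
  have huniq : ∀ d, 1 ≤ d → d ^ 2 ∣ m → Squarefree (m / d ^ 2) → d = b := by
    intro d hd hdm hsd
    obtain ⟨c, hc⟩ := hdm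
    have hd2 : 0 < d ^ 2 := by positivity
    rw [hc, Nat.mul_div_cancel_left _ hd2] at hsd
    have hc0 : c ≠ 0 := fun h => by rw [h, mul_zero] at hc; omega
    apply Nat.eq_of_factorization_eq (by omega) (by omega)
    intro p
    have h1 : (b ^ 2 * a).factorization p = (d ^ 2 * c).factorization p := by rw [hab, hc]
    rw [Nat.factorization_mul (by positivity) (by omega),
      Nat.factorization_mul (by positivity) hc0, Nat.factorization_pow, Nat.factorization_pow] at h1
    simp only [Finsupp.coe_add, Finsupp.coe_smul, Pi.add_apply, Pi.smul_apply, smul_eq_mul] at h1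
    have h2 := hsq.natFactorization_le_one p
    have h3 := hsd.natFactorization_le_one p
    omega
  have hsum : ∑ i ∈ range D, (if (i + 1) ^ 2 ∣ m then mb (m / (i + 1) ^ 2) else 0) =
      if b ≤ D then mb a else 0 := by
    have h1 : ∀ i ∈ range D, (if (i + 1) ^ 2 ∣ m then mb (m / (i + 1) ^ 2) else 0) =
        if i = b - 1 then mb a else 0 := by
      intro i _
      by_cases h2 : i = b - 1
      · have h3 : i + 1 = b := by omega
        rw [if_pos h2, h3, ← hab, if_pos (dvd_mul_right _ _),
          Nat.mul_div_cancel_left _ (by positivity)]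
      · rw [if_neg h2]
        split_ifs with h3
        · have h4 : ¬ Squarefree (m / (i + 1) ^ 2) := fun h5 => by
            have := huniq (i + 1) (by omega) h3 h5
            omega
          unfold mb
          rw [ArithmeticFunction.moebius_eq_zero_of_not_squarefree h4]
          simp
        · rfl
    rw [sum_congr rfl h1, sum_ite_eq' (range D) (b - 1) (fun _ => mb a)]
    have h2 : b - 1 ∈ range D ↔ b ≤ D := by rw [mem_range]; omega
    simp only [h2]
  rw [hsum, hlb]
  split_ifs with h
  · rw [sub_self, norm_zero]; exact tl_nonneg _ _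
  · have h1 : tl D m = 1 := by
      unfold tl
      rw [if_pos ⟨b, by omega, ⟨a, hab.symm⟩⟩]
    rw [sub_zero, h1]
    exact norm_mb_le a

open Classical in
/-- no square divisor at most `D` -/
noncomputable def sf (D m : ℕ) : ℂ := if ∃ d, 2 ≤ d ∧ d ≤ D ∧ d ^ 2 ∣ m then 0 else 1

lemma norm_sf_le (D m : ℕ) : ‖sf D m‖ ≤ 1 := by unfold sf; split_ifs <;> simp

lemma sf_per (D m : ℕ) : sf D m = sf D (m % (D.factorial) ^ 2) := by
  have h : (∃ d, 2 ≤ d ∧ d ≤ D ∧ d ^ 2 ∣ m) ↔
      (∃ d, 2 ≤ d ∧ d ≤ D ∧ d ^ 2 ∣ m % (D.factorial) ^ 2) := by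
    have h1 : ∀ d, 2 ≤ d → d ≤ D → (d ^ 2 ∣ m ↔ d ^ 2 ∣ m % (D.factorial) ^ 2) := by
      intro d h2 h3
      exact (Nat.dvd_mod_iff (pow_dvd_pow_of_dvd (Nat.dvd_factorial (by omega) h3) 2)).symm
    constructor
    · rintro ⟨d, h2, h3, h4⟩; exact ⟨d, h2, h3, (h1 d h2 h3).1 h4⟩
    · rintro ⟨d, h2, h3, h4⟩; exact ⟨d, h2, h3, (h1 d h2 h3).2 h4⟩
  unfold sf
  by_cases h1 : ∃ d, 2 ≤ d ∧ d ≤ D ∧ d ^ 2 ∣ m
  · rw [if_pos h1, if_pos (h.1 h1)]
  · rw [if_neg h1, if_neg fun h2 => h1 (h.2 h2)]

/-- from `f` to the Möbius function, one number -/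
lemma mb_dec (f : ℕ → ℂ) (hf : ∀ n, ‖f n‖ ≤ 1) (hs : ∀ n, Squarefree n → f n = mb n) (z : ℂ)
    (D m : ℕ) (hm : 1 ≤ m) : ‖mb m - sf D m * z‖ ^ 2 ≤ 2 * ‖f m - z‖ ^ 2 + 2 * tl D m := by
  by_cases h1 : ∃ d, 2 ≤ d ∧ d ≤ D ∧ d ^ 2 ∣ m
  · have h2 : sf D m = 0 := by unfold sf; rw [if_pos h1]
    have h3 : mb m = 0 := by
      obtain ⟨d, h4, _, h6⟩ := h1
      unfold mb
      rw [ArithmeticFunction.moebius_eq_zero_of_not_squarefree]
      · simp
      · intro h7
        have h8 := h7 d (by rw [← sq]; exact h6)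
        rw [Nat.isUnit_iff] at h8
        omega
    rw [h2, h3, zero_mul, sub_zero, norm_zero, zero_pow two_ne_zero]
    have := tl_nonneg D m
    positivity
  · have h2 : sf D m = 1 := by unfold sf; rw [if_neg h1]
    rw [h2, one_mul]
    by_cases h3 : Squarefree m
    · rw [← hs m h3]
      have := tl_nonneg D m
      have h4 : 0 ≤ ‖f m - z‖ ^ 2 := by positivity
      linarith
    · have h4 : tl D m = 1 := by
        unfold tl
        rw [if_pos]
        by_contra h5
        push Not at h5
        apply h3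
        intro x hx
        rw [Nat.isUnit_iff]
        have hx0 : x ≠ 0 := fun h => by
          rw [h, mul_zero] at hx
          have := Nat.eq_zero_of_zero_dvd hx
          omega
        by_contra h6
        have h7 : D < x := by
          by_contra h8
          exact h1 ⟨x, by omega, by omega, by rw [sq]; exact hx⟩
        exact h5 x h7 (by rw [sq]; exact hx)
      have h5 : mb m = 0 := by
        unfold mb
        rw [ArithmeticFunction.moebius_eq_zero_of_not_squarefree h3]
        simp
      rw [h4, h5, zero_sub, norm_neg]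
      have h6 : ‖z‖ ≤ ‖f m - z‖ + 1 := by
        calc ‖z‖ = ‖f m - (f m - z)‖ := by congr 1; ring
          _ ≤ ‖f m‖ + ‖f m - z‖ := norm_sub_le _ _
          _ ≤ _ := by linarith [hf m]
      have h7 := norm_nonneg z
      have h8 := norm_nonneg (f m - z)
      nlinarith [sq_nonneg (‖f m - z‖ - 1)]

end Pool.Agent.H72.GM2
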