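import Pool.Agent.H93.EB.Basic
import Pool.Agent.H91.BS.ESM

/-!
# Theorem (G), MP_c59857_nt, for all functions which agree with the Möbius function on the
squarefree numbers: sums of exponentials on windows
-/

set_option autoImplicit false

open Finset Pool.Agent.H6.N4D Pool.Agent.H93.EB

namespace Pool.Agent.H72.GM2

/-- `F` is a sum of `R` exponentials with coefficients of norm at most one -/
def Sx (R : ℕ) (F : ℕ → ℂ) : Prop := ∃ (b : ℕ → ℂ) (β : ℕ → ℝ), (∀ r, ‖b r‖ ≤ 1) ∧
  ∀ m : ℕ, F m = ∑ r ∈ range R, b r * ee (β r * m)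

lemma Sx_zero (R : ℕ) : Sx R (fun _ => 0) :=
  ⟨fun _ => 0, fun _ => 0, fun _ => by simp, fun _ => by simp⟩

lemma Sx_add {R R' : ℕ} {F G : ℕ → ℂ} (hF : Sx R F) (hG : Sx R' G) :
    Sx (R + R') (fun m => F m + G m) := by
  obtain ⟨b, β, hb, h1⟩ := hF
  obtain ⟨b', β', hb', h2⟩ := hG
  refine ⟨fun r => if r < R then b r else b' (r - R), fun r => if r < R then β r else β' (r - R),
    fun r => ?_, fun m => ?_⟩
  · dsimp only
    split_ifs
    · exact hb r
    · exact hb' _
  · beta_reduce
    rw [sum_range_add, h1, h2]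
    congr 1
    · apply sum_congr rfl
      intro r hr
      rw [if_pos (mem_range.1 hr), if_pos (mem_range.1 hr)]
    · apply sum_congr rfl
      intro r _
      rw [if_neg (by omega), if_neg (by omega), Nat.add_sub_cancel_left]

lemma Sx_mono {R R' : ℕ} {F : ℕ → ℂ} (h : R ≤ R') (hF : Sx R F) : Sx R' F := by
  obtain ⟨k, rfl⟩ := Nat.exists_eq_add_of_le h
  have h1 := Sx_add hF (Sx_zero k)
  have e : (fun m => F m + 0) = F := by funext m; rw [add_zero]
  rw [e] at h1
  exact h1

lemma Sx_sum {R : ℕ} (D : ℕ) {F : ℕ → ℕ → ℂ} (hF : ∀ i < D, Sx R (F i)) :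
    Sx (D * R) (fun m => ∑ i ∈ range D, F i m) := by
  induction D with
  | zero => simpa using Sx_zero 0
  | succ D ih =>
    have h1 := Sx_add (ih fun i hi => hF i (by omega)) (hF D (by omega))
    have e : (fun m => ∑ i ∈ range D, F i m + F D m) = fun m => ∑ i ∈ range (D + 1), F i m := by
      funext m; rw [sum_range_succ]
    rw [e] at h1
    have e2 : (D + 1) * R = D * R + R := by ring
    rw [e2]
    exact h1

lemma Sx_mul {R : ℕ} {F : ℕ → ℂ} (hF : Sx R F) (c : ℂ) (hc : ‖c‖ ≤ 1) (t : ℝ) :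
    Sx R (fun m => c * ee (t * m) * F m) := by
  obtain ⟨b, β, hb, h1⟩ := hF
  refine ⟨fun r => c * b r, fun r => t + β r, fun r => ?_, fun m => ?_⟩
  · rw [norm_mul]
    exact mul_le_one₀ hc (norm_nonneg _) (hb r)
  · beta_reduce
    rw [h1, mul_sum]
    apply sum_congr rfl
    intro r _
    rw [add_mul, ee_add]
    ring

/-- the characters of the residue classes -/
lemma sum_ee (d n : ℕ) (hd : 1 ≤ d) :
    ∑ c ∈ range d, ee ((c : ℝ) / d * n) = if d ∣ n then (d : ℂ) else 0 := by
  have h := Pool.Agent.H91.BS.pf_DQF d n hd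
  unfold Pool.Agent.H21.BS.DD at h
  have h2 : ∑ c ∈ range d, ee ((c : ℝ) / d * n) =
      ee (((0 : ℕ) : ℝ) / d * n) + ∑ b ∈ Ico 1 d, ee ((b : ℝ) / d * n) := by
    rw [range_eq_Ico, sum_eq_sum_Ico_succ_bot (by omega)]
  rw [h2, ← h]
  have h3 : ee (((0 : ℕ) : ℝ) / d * n) = 1 := by
    have : ((0 : ℕ) : ℝ) / d * n = 0 := by simp
    rw [this]
    unfold ee
    simp
  rw [h3]; ring

/-- the product with a periodic function -/
lemma Sx_per {R : ℕ} {F : ℕ → ℂ} (hF : Sx R F) (Q : ℕ) (hQ : 1 ≤ Q) (g : ℕ → ℂ)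
    (hg : ∀ m, ‖g m‖ ≤ 1) (hp : ∀ m, g m = g (m % Q)) : Sx (Q * R) (fun m => g m * F m) := by
  have hQ0 : (0 : ℝ) < Q := by exact_mod_cast hQ
  have hQ0' : (Q : ℂ) ≠ 0 := by exact_mod_cast (by omega : Q ≠ 0)
  -- the Fourier coefficients
  obtain ⟨w, hw⟩ : ∃ w : ℕ → ℂ, w = fun a : ℕ => (∑ c ∈ range Q, g c * ee (-((a : ℝ) / Q * c))) / Q :=
    ⟨_, rfl⟩
  have hw1 : ∀ a, ‖w a‖ ≤ 1 := by
    intro a
    rw [hw]
    simp only
    rw [norm_div, Complex.norm_natCast, div_le_one hQ0]
    refine (norm_sum_le _ _).trans ?_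
    calc ∑ c ∈ range Q, ‖g c * ee (-((a : ℝ) / Q * c))‖ ≤ ∑ _c ∈ range Q, (1 : ℝ) := by
          apply sum_le_sum
          intro c _
          rw [norm_mul, norm_ee, mul_one]
          exact hg c
      _ = Q := by simp
  have h1 := Sx_sum (R := R) Q (F := fun (a m : ℕ) => w a * ee ((a : ℝ) / Q * m) * F m)
    (fun a _ => Sx_mul hF (w a) (hw1 a) _)
  have e : (fun m : ℕ => ∑ a ∈ range Q, w a * ee ((a : ℝ) / Q * m) * F m) = fun m => g m * F m := by
    funext m
    rw [← sum_mul]
    congr 1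
    -- inversion
    have h2 : ∀ a ∈ range Q, w a * ee ((a : ℝ) / Q * m) =
        (∑ c ∈ range Q, g c * ee ((a : ℝ) / Q * ((m + (Q - c) : ℕ) : ℝ))) / Q := by
      intro a _
      rw [hw]
      simp only
      rw [div_mul_eq_mul_div, sum_mul]
      congr 1
      apply sum_congr rfl
      intro c hc
      have hc' := mem_range.1 hc
      rw [mul_assoc]
      congr 1
      have h3 : (a : ℝ) / Q * ((m + (Q - c) : ℕ) : ℝ) =
          -((a : ℝ) / Q * c) + (a : ℝ) / Q * m + (a : ℤ) := by
        rw [Nat.cast_add, Nat.cast_sub hc'.le]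
        field_simp
        push_cast
        ring
      rw [h3, ee_add, ee_int, mul_one, ee_add]
    rw [sum_congr rfl h2, ← sum_div, sum_comm]
    have h3 : ∀ c ∈ range Q, ∑ a ∈ range Q, g c * ee ((a : ℝ) / Q * ((m + (Q - c) : ℕ) : ℝ)) =
        if c = m % Q then g c * Q else 0 := by
      intro c hc
      have hc' := mem_range.1 hc
      rw [← mul_sum, sum_ee Q (m + (Q - c)) hQ]
      have h4 : Q ∣ m + (Q - c) ↔ c = m % Q := by
        constructor
        · intro h
          have h5 : (m + (Q - c)) % Q = 0 := Nat.mod_eq_zero_of_dvd h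
          have h6 : m = Q * (m / Q) + m % Q := (Nat.div_add_mod m Q).symm
          have h7 : m % Q < Q := Nat.mod_lt _ (by omega)
          obtain ⟨k, hk⟩ := h
          have h8 : m % Q + (Q - c) = Q * k - Q * (m / Q) := by omega
          have h9 : Q ∣ m % Q + (Q - c) := by
            rw [h8, ← Nat.mul_sub]
            exact dvd_mul_right _ _
          obtain ⟨l, hl⟩ := h9
          have h10 : 0 < m % Q + (Q - c) := by omega
          have h11 : m % Q + (Q - c) < 2 * Q := by omega
          have h12 : l = 1 := by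
            have h13 : 0 < l := Nat.pos_of_ne_zero fun h => by rw [h] at hl; omega
            have h14 : l < 2 := by
              by_contra h15
              have : Q * 2 ≤ Q * l := Nat.mul_le_mul_left Q (by omega)
              omega
            omega
          rw [h12] at hl
          omega
        · intro h
          have h6 : m = Q * (m / Q) + m % Q := (Nat.div_add_mod m Q).symm
          have h7 : m % Q < Q := Nat.mod_lt _ (by omega)
          refine ⟨m / Q + 1, ?_⟩
          rw [mul_add, mul_one]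
          omega
      simp only [h4]
      split_ifs <;> simp
    rw [sum_congr rfl h3, sum_ite_eq' (range Q) (m % Q) (fun c => g c * (Q : ℂ)),
      if_pos (mem_range.2 (Nat.mod_lt _ (by omega))), mul_div_assoc, div_self hQ0', mul_one,
      ← hp]
  rw [e] at h1
  exact h1

/-- dilation -/
lemma Sx_dil {R : ℕ} {F : ℕ → ℂ} (hF : Sx R F) (d : ℕ) (hd : 1 ≤ d) :
    Sx (d * R) (fun m => if d ∣ m then F (m / d) else 0) := by
  have hd0 : (0 : ℝ) < d := by exact_mod_cast hd
  obtain ⟨b, β, hb, h1⟩ := hF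
  have h2 : Sx R (fun m : ℕ => ∑ r ∈ range R, b r * ee (β r / d * m)) :=
    ⟨b, fun r => β r / d, hb, fun m => rfl⟩
  have h3 := Sx_per h2 d hd (fun m => if d ∣ m then 1 else 0)
    (fun m => by split_ifs <;> simp)
    (fun m => by
      have : d ∣ m ↔ d ∣ m % d := (Nat.dvd_mod_iff dvd_rfl).symm
      simp only [this])
  have e : (fun m : ℕ => (if d ∣ m then (1 : ℂ) else 0) * ∑ r ∈ range R, b r * ee (β r / d * m)) =
      fun m => if d ∣ m then F (m / d) else 0 := by
    funext m
    split_ifs with h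
    · rw [one_mul, h1]
      apply sum_congr rfl
      intro r _
      congr 2
      obtain ⟨k, rfl⟩ := h
      rw [Nat.mul_div_cancel_left k (by omega)]
      push_cast
      field_simp
    · rw [zero_mul]
  rw [e] at h3
  exact h3

end Pool.Agent.H72.GM2
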