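import Pool.Agent.H72.GM2.Fin

/-!
# Theorem (G), MP_c59857_nt, for all functions which agree on the squarefree numbers with the
product of the Möbius function and a Dirichlet character: transfer
-/

set_option autoImplicit false

open Finset Pool.Agent.H6.N4D Pool.Agent.H93.EB

namespace Pool.Agent.H72.GM2

/-- approximations on windows carry over from the functions with `P` to `g` -/
def Tr (P : (ℕ → ℂ) → Prop) (g : ℕ → ℂ) : Prop := ∀ j : ℕ, 1 ≤ j → ∃ J N C : ℕ, 1 ≤ J ∧
  ∀ (R H X : ℕ) (f : ℕ → ℂ) (F : ℕ → ℕ → ℂ), P f → (∀ n, Sx R (F n)) → C ≤ H → H ^ C ≤ X →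
    lg X (er f F H) ≤ 1 / (J : ℝ) * Real.log X →
    ∃ G : ℕ → ℕ → ℂ, (∀ n, Sx (N * R) (G n)) ∧ lg X (er g G H) ≤ 1 / (j : ℝ) * Real.log X

theorem Tr_trans {P : (ℕ → ℂ) → Prop} {g g' : ℕ → ℂ} (h1 : Tr P g)
    (h2 : Tr (fun f => f = g) g') : Tr P g' := by
  intro j hj
  obtain ⟨J, N, C, hJ, h2⟩ := h2 j hj
  obtain ⟨J', N', C', hJ', h1⟩ := h1 J hJ
  refine ⟨J', N * N', 1 + C + C', hJ', ?_⟩
  intro R H X f F hP hF hC hX he
  have hH : 1 ≤ H := by omega
  obtain ⟨G, hG, h3⟩ := h1 R H X f F hP hF (by omega)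
    ((Nat.pow_le_pow_right hH (by omega)).trans hX) he
  obtain ⟨G', hG', h4⟩ := h2 (N' * R) H X g G rfl hG (by omega)
    ((Nat.pow_le_pow_right hH (by omega)).trans hX) h3
  exact ⟨G', by rw [mul_assoc]; exact hG', h4⟩

theorem Tr_lb : Tr (fun f => f = mb) lb := by
  intro j hj
  obtain ⟨J, N, C, hJ, h⟩ := step j hj
  refine ⟨J, N, C, hJ, ?_⟩
  intro R H X f F hP hF hC hX he
  exact h R H X f F (by rw [hP]; exact norm_mb_le) (fun n _ => by rw [hP]) hF hC hX he

/-- the numbers coprime to `q` -/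
noncomputable def mx (q n : ℕ) : ℂ := if Nat.Coprime n q then mb n else 0

lemma norm_mx_le (q n : ℕ) : ‖mx q n‖ ≤ 1 := by
  unfold mx
  split_ifs
  · exact norm_mb_le n
  · simp

/-- the Möbius function from its values at the numbers coprime to `q` -/
lemma mb_mx (q m : ℕ) (hq : 1 ≤ q) (hm : 1 ≤ m) :
    mb m = ∑ i ∈ range q, (if (i + 1) ∣ q then mb (i + 1) else 0) *
      (if (i + 1) ∣ m then mx q (m / (i + 1)) else 0) := by
  obtain ⟨g, hg⟩ : ∃ g, g = Nat.gcd m q := ⟨_, rfl⟩
  have hgm : g ∣ m := by rw [hg]; exact Nat.gcd_dvd_left m q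
  have hgq : g ∣ q := by rw [hg]; exact Nat.gcd_dvd_right m q
  have hg1 : 1 ≤ g := Nat.pos_of_dvd_of_pos hgm hm
  have hgq' : g ≤ q := Nat.le_of_dvd hq hgq
  by_cases hs : Squarefree m
  · have h1 : ∀ i ∈ range q, (if (i + 1) ∣ q then mb (i + 1) else 0) *
        (if (i + 1) ∣ m then mx q (m / (i + 1)) else 0) = if i = g - 1 then mb m else 0 := by
      intro i _
      by_cases h2 : i = g - 1
      · have h3 : i + 1 = g := by omega
        rw [if_pos h2, h3, if_pos hgq, if_pos hgm]
        obtain ⟨k, hk⟩ := hgm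
        have hcop : Nat.Coprime g k := by
          rw [hk] at hs
          exact Nat.coprime_of_squarefree_mul hs
        have h4 : m / g = k := by rw [hk, Nat.mul_div_cancel_left _ hg1]
        rw [h4]
        have h5 : Nat.Coprime k q := by
          rw [Nat.coprime_iff_gcd_eq_one]
          by_contra h6
          obtain ⟨p, hp, hpd⟩ := Nat.exists_prime_and_dvd h6
          have h7 : p ∣ k := hpd.trans (Nat.gcd_dvd_left _ _)
          have h8 : p ∣ q := hpd.trans (Nat.gcd_dvd_right _ _)
          have h9 : p ∣ g := by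
            rw [hg]
            exact Nat.dvd_gcd (by rw [hk]; exact Dvd.dvd.mul_left h7 g) h8
          have h10 := Nat.dvd_gcd h9 h7
          rw [hcop] at h10
          exact hp.one_lt.ne' (Nat.dvd_one.1 h10)
        unfold mx
        rw [if_pos h5, hk]
        unfold mb
        rw [ArithmeticFunction.isMultiplicative_moebius.map_mul_of_coprime hcop]
        push_cast
        rfl
      · rw [if_neg h2]
        by_cases h3 : (i + 1) ∣ q
        · by_cases h4 : (i + 1) ∣ m
          · rw [if_pos h3, if_pos h4]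
            obtain ⟨l, hl⟩ : (i + 1) ∣ g := by rw [hg]; exact Nat.dvd_gcd h4 h3
            have hl1 : l ≠ 1 := fun h => by rw [h, mul_one] at hl; omega
            have h5 : ¬ Nat.Coprime (m / (i + 1)) q := by
              intro h6
              have h7 : l ∣ m / (i + 1) := by
                obtain ⟨k, hk⟩ := hgm
                rw [hk, hl, mul_assoc, Nat.mul_div_cancel_left _ (by omega)]
                exact dvd_mul_right _ _
              have h8 : l ∣ q := by
                refine Dvd.dvd.trans ?_ hgq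
                rw [hl]; exact dvd_mul_left _ _
              have h9 := Nat.dvd_gcd h7 h8
              rw [h6] at h9
              exact hl1 (Nat.dvd_one.1 h9)
            unfold mx
            rw [if_neg h5, mul_zero]
          · rw [if_neg h4, mul_zero]
        · rw [if_neg h3, zero_mul]
    rw [sum_congr rfl h1, sum_ite_eq' (range q) (g - 1) (fun _ => mb m),
      if_pos (mem_range.2 (by omega))]
  · have h0 : mb m = 0 := by
      unfold mb
      rw [ArithmeticFunction.moebius_eq_zero_of_not_squarefree hs]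
      simp
    rw [h0]
    symm
    apply sum_eq_zero
    intro i _
    by_cases h3 : (i + 1) ∣ q
    · by_cases h4 : (i + 1) ∣ m
      · rw [if_pos h3, if_pos h4]
        by_cases h5 : Nat.Coprime (m / (i + 1)) q
        · by_cases h6 : Squarefree (i + 1)
          · by_cases h7 : Squarefree (m / (i + 1))
            · exfalso
              apply hs
              have h8 : (i + 1) * (m / (i + 1)) = m := Nat.mul_div_cancel' h4
              rw [← h8, Nat.squarefree_mul]
              · exact ⟨h6, h7⟩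
              · exact (Nat.Coprime.coprime_dvd_right h3 h5).symm
            · unfold mx mb
              rw [ArithmeticFunction.moebius_eq_zero_of_not_squarefree h7]
              simp
          · unfold mb
            rw [ArithmeticFunction.moebius_eq_zero_of_not_squarefree h6]
            simp
        · unfold mx
          rw [if_neg h5, mul_zero]
      · rw [if_neg h4, mul_zero]
    · rw [if_neg h3, zero_mul]

/-- from the numbers coprime to `q` to all numbers -/
theorem mx_to_mb {R : ℕ} (q : ℕ) (hq : 1 ≤ q) (F : ℕ → ℕ → ℂ) (H X : ℕ)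
    (hF : ∀ n, Sx R (F n)) (hH : 1 ≤ H) :
    ∃ G : ℕ → ℕ → ℂ, (∀ n, Sx (q * q * R) (G n)) ∧
      lg X (er mb G H) ≤ (q : ℝ) ^ 2 *
        (2 * lg X (er (mx q) F H) + 2 + Real.log H + Real.log q) := by
  have hH0 : (0 : ℝ) < H := by exact_mod_cast hH
  have hex : ∀ i, ∃ G : ℕ → ℕ → ℂ, i < q → ((∀ n, Sx (q * R) (G n)) ∧
      lg X (er (fun m => if (i + 1) ∣ m then mx q (m / (i + 1)) else 0) G H) ≤
        2 * lg X (er (mx q) F H) + 2 + Real.log H + Real.log q) := by
    intro i
    by_cases hi : i < q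
    · obtain ⟨d, hd⟩ : ∃ d, d = i + 1 := ⟨_, rfl⟩
      have hd1 : 1 ≤ d := by omega
      have hdD : d ≤ q := by omega
      rw [← hd]
      have h1 : 1 ≤ (H + d - 1) / d := (Nat.one_le_div_iff hd1).2 (by omega)
      have h2 : (H + d - 1) / d ≤ H := by
        apply Nat.div_le_of_le_mul
        obtain ⟨k, rfl⟩ := Nat.exists_eq_add_of_le hH
        obtain ⟨l, hl⟩ := Nat.exists_eq_add_of_le hd1
        rw [hl]
        have : (1 + l) * (1 + k) = 1 + k + (1 + l) - 1 + l * k := by
          have : 1 + k + (1 + l) - 1 = 1 + k + l := by omega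
          rw [this]; ring
        rw [this]; omega
      obtain ⟨F', hF', h3⟩ := rst (mx q) F H ((H + d - 1) / d) X hF (norm_mx_le q) h1 h2
      obtain ⟨G, hG, h4⟩ := dil (mx q) F' H d X hF' (norm_mx_le q) hH hd1
      refine ⟨G, fun _ => ⟨fun n => Sx_mono (Nat.mul_le_mul_right R hdD) (hG n), ?_⟩⟩
      have h5 : Real.log d ≤ Real.log q :=
        Real.log_le_log (by exact_mod_cast hd1) (by exact_mod_cast hdD)
      linarith
    · exact ⟨fun _ _ => 0, fun h => absurd h hi⟩
  choose G hG using hex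
  obtain ⟨w, hw⟩ : ∃ w : ℕ → ℂ, w = fun i => if (i + 1) ∣ q then mb (i + 1) else 0 := ⟨_, rfl⟩
  have hw1 : ∀ i, ‖w i‖ ≤ 1 := by
    intro i
    rw [hw]
    simp only
    split_ifs
    · exact norm_mb_le _
    · simp
  refine ⟨fun n m => ∑ i ∈ range q, w i * G i n m, fun n => ?_, ?_⟩
  · rw [mul_assoc]
    apply Sx_sum q
    intro i hi
    have h1 := Sx_mul ((hG i hi).1 n) (w i) (hw1 i) 0
    have e : (fun m : ℕ => w i * ee ((0 : ℝ) * m) * G i n m) = fun m => w i * G i n m := by
      funext m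
      have : ee ((0 : ℝ) * m) = 1 := by
        rw [zero_mul]
        unfold ee
        simp
      rw [this, mul_one]
    rw [e] at h1
    exact h1
  have h2 : lg X (er mb (fun n m => ∑ i ∈ range q, w i * G i n m) H) ≤
      lg X (fun n => q * ∑ i ∈ range q,
        er (fun m => if (i + 1) ∣ m then mx q (m / (i + 1)) else 0) (G i) H n) := by
    apply lg_mono
    intro n _
    unfold er
    have h3 : ∑ m ∈ Ioc n (n + H), ‖mb m - ∑ i ∈ range q, w i * G i n m‖ ^ 2 ≤
        ∑ m ∈ Ioc n (n + H), q * ∑ i ∈ range q,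
          ‖(if (i + 1) ∣ m then mx q (m / (i + 1)) else 0) - G i n m‖ ^ 2 := by
      apply sum_le_sum
      intro m hm
      have h4 := mb_mx q m hq (by have := (mem_Ioc.1 hm).1; omega)
      have h5 : mb m - ∑ i ∈ range q, w i * G i n m =
          ∑ i ∈ range q, w i * ((if (i + 1) ∣ m then mx q (m / (i + 1)) else 0) - G i n m) := by
        rw [h4, ← sum_sub_distrib]
        apply sum_congr rfl
        intro i _
        rw [hw]
        ring
      rw [h5]
      calc ‖∑ i ∈ range q, w i * ((if (i + 1) ∣ m then mx q (m / (i + 1)) else 0) - G i n m)‖ ^ 2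
          ≤ (∑ i ∈ range q,
            ‖(if (i + 1) ∣ m then mx q (m / (i + 1)) else 0) - G i n m‖) ^ 2 := by
            apply pow_le_pow_left₀ (norm_nonneg _)
            refine (norm_sum_le _ _).trans ?_
            apply sum_le_sum
            intro i _
            rw [norm_mul]
            exact mul_le_of_le_one_left (norm_nonneg _) (hw1 i)
        _ ≤ (range q).card * ∑ i ∈ range q,
            ‖(if (i + 1) ∣ m then mx q (m / (i + 1)) else 0) - G i n m‖ ^ 2 :=
            sq_sum_le_card_mul_sum_sq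
        _ = _ := by rw [card_range]
    rw [← mul_sum, sum_comm] at h3
    have h4 := div_le_div_of_nonneg_right h3 hH0.le
    refine h4.trans (le_of_eq ?_)
    rw [mul_div_assoc, sum_div]
  rw [lg_mul, lg_sum] at h2
  have h3 : ∑ i ∈ range q, lg X (fun n =>
      er (fun m => if (i + 1) ∣ m then mx q (m / (i + 1)) else 0) (G i) H n) ≤
      q * (2 * lg X (er (mx q) F H) + 2 + Real.log H + Real.log q) := by
    calc _ ≤ ∑ _i ∈ range q, (2 * lg X (er (mx q) F H) + 2 + Real.log H + Real.log q) :=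
          sum_le_sum fun i hi => (hG i (mem_range.1 hi)).2
      _ = _ := by rw [sum_const, card_range, nsmul_eq_mul]
  have h4 := mul_le_mul_of_nonneg_left h3 (Nat.cast_nonneg (α := ℝ) q)
  refine h2.trans (h4.trans (le_of_eq ?_))
  ring

/-- the functions of the theorem -/
def PC (q : ℕ) (f : ℕ → ℂ) : Prop := (∀ n, ‖f n‖ ≤ 1) ∧ ∃ χ : DirichletCharacter ℂ q,
  ∀ n, Squarefree n → f n = χ n * mb n

/-- one number -/
lemma mx_dec (q : ℕ) (χ : DirichletCharacter ℂ q) (f : ℕ → ℂ)
    (hf : ∀ n, ‖f n‖ ≤ 1) (hs : ∀ n, Squarefree n → f n = χ n * mb n) (z : ℂ)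
    (D m : ℕ) (hm : 1 ≤ m) :
    ‖mx q m - sf D m * (starRingEnd ℂ) (χ m) * z‖ ^ 2 ≤ 2 * ‖f m - z‖ ^ 2 + 2 * tl D m := by
  have hnn := tl_nonneg D m
  by_cases hc : Nat.Coprime m q
  · have h1 : mx q m = mb m := by unfold mx; rw [if_pos hc]
    have hu : IsUnit (m : ZMod q) := (ZMod.isUnit_iff_coprime m q).2 hc
    have hn : ‖χ m‖ = 1 := by
      obtain ⟨u, hu⟩ := hu
      rw [← hu]
      exact DirichletCharacter.unit_norm_eq_one χ u
    have hcc : (starRingEnd ℂ) (χ m) * χ m = 1 := by
      rw [mul_comm, Complex.mul_conj, Complex.normSq_eq_norm_sq, hn]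
      simp
    rw [h1]
    -- the function `f` times the conjugate of the character
    have h2 := mb_dec (fun n => if n = m then (starRingEnd ℂ) (χ m) * f m else mb n)
      (fun n => by
        split_ifs
        · rw [norm_mul, RCLike.norm_conj, hn, one_mul]; exact hf m
        · exact norm_mb_le n)
      (fun n hsq => by
        split_ifs with h
        · rw [h] at hsq ⊢
          rw [hs m hsq, ← mul_assoc, hcc, one_mul]
        · rfl) ((starRingEnd ℂ) (χ m) * z) D m hm
    simp only [if_true] at h2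
    rw [← mul_sub, norm_mul, RCLike.norm_conj, hn, one_mul, ← mul_assoc] at h2
    exact h2
  · have h1 : mx q m = 0 := by unfold mx; rw [if_neg hc]
    have h2 : χ m = 0 := χ.map_nonunit fun h => hc ((ZMod.isUnit_iff_coprime m q).1 h)
    rw [h1, h2]
    simp only [map_zero, mul_zero, zero_mul, sub_zero, norm_zero]
    rw [zero_pow two_ne_zero]
    positivity

/-- from `f` to the Möbius function at the numbers coprime to `q` -/
theorem f_to_mx {R : ℕ} (q : ℕ) (hq : 1 ≤ q) (χ : DirichletCharacter ℂ q) (f : ℕ → ℂ)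
    (hf : ∀ n, ‖f n‖ ≤ 1)
    (hs : ∀ n, Squarefree n → f n = χ n * mb n) (F : ℕ → ℕ → ℂ) (D H X : ℕ)
    (hF : ∀ n, Sx R (F n)) (hD : 1 ≤ D) (hH : 1 ≤ H) :
    ∃ G : ℕ → ℕ → ℂ, (∀ n, Sx (D.factorial ^ 2 * q * R) (G n)) ∧
      lg X (er (mx q) G H) ≤ 2 * lg X (er f F H) +
        2 * (1 / D * (1 + Real.log X) + 1 + Real.log H) := by
  have hH0 : (0 : ℝ) < H := by exact_mod_cast hH
  refine ⟨fun n m => sf D m * (starRingEnd ℂ) (χ m) * F n m, fun n =>
    Sx_per (hF n) (D.factorial ^ 2 * q)
      (Nat.mul_pos (Nat.one_le_pow _ _ (Nat.factorial_pos D)) hq)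
      (fun m => sf D m * (starRingEnd ℂ) (χ m)) (fun m => ?_) (fun m => ?_), ?_⟩
  · rw [norm_mul, RCLike.norm_conj]
    exact mul_le_one₀ (norm_sf_le D m) (norm_nonneg _) (χ.norm_le_one _)
  · have h1 : sf D m = sf D (m % (D.factorial ^ 2 * q)) := by
      rw [sf_per D m, sf_per D (m % (D.factorial ^ 2 * q)),
        Nat.mod_mod_of_dvd _ (dvd_mul_right _ _)]
    have h2 : ((m : ℕ) : ZMod q) = ((m % (D.factorial ^ 2 * q) : ℕ) : ZMod q) := by
      rw [ZMod.natCast_eq_natCast_iff', Nat.mod_mod_of_dvd _ (dvd_mul_left _ _)]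
    rw [← h1, ← h2]
  have h1 := lg_tl_win D H X hD hH
  have h2 : lg X (er (mx q) (fun n m => sf D m * (starRingEnd ℂ) (χ m) * F n m) H) ≤
      lg X (fun n => 2 * er f F H n + 2 * ((∑ m ∈ Ioc n (n + H), tl D m) / H)) := by
    apply lg_mono
    intro n _
    unfold er
    have h3 : ∑ m ∈ Ioc n (n + H), ‖mx q m - sf D m * (starRingEnd ℂ) (χ m) * F n m‖ ^ 2 ≤
        ∑ m ∈ Ioc n (n + H), (2 * ‖f m - F n m‖ ^ 2 + 2 * tl D m) := by
      apply sum_le_sum
      intro m hm
      exact mx_dec q χ f hf hs _ D m (by have := (mem_Ioc.1 hm).1; omega)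
    rw [sum_add_distrib, ← mul_sum, ← mul_sum] at h3
    have h4 := div_le_div_of_nonneg_right h3 hH0.le
    refine h4.trans (le_of_eq ?_)
    ring
  rw [lg_add, lg_mul, lg_mul] at h2
  linarith

end Pool.Agent.H72.GM2
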