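import Pool.Agent.H72.GM2.Sx

/-!
# Theorem (G), MP_c59857_nt, for all functions which agree with the Möbius function on the
squarefree numbers: restriction to shorter windows, dilation
-/

set_option autoImplicit false

open Finset Pool.Agent.H6.N4D Pool.Agent.H93.EB

namespace Pool.Agent.H72.GM2

lemma lt_md (n : ℕ) {d : ℕ} (hd : 1 ≤ d) : n < d * (n / d) + d := by
  have h1 := Nat.div_add_mod n d
  have h2 := Nat.mod_lt n (by omega : 0 < d)
  omega

/-- the mean square distance on the window -/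
noncomputable def er (f : ℕ → ℂ) (F : ℕ → ℕ → ℂ) (H n : ℕ) : ℝ :=
  (∑ m ∈ Ioc n (n + H), ‖f m - F n m‖ ^ 2) / H

lemma er_nonneg (f : ℕ → ℂ) (F : ℕ → ℕ → ℂ) (H n : ℕ) : 0 ≤ er f F H n := by
  unfold er; positivity

lemma er_zero_le (f : ℕ → ℂ) (hf : ∀ n, ‖f n‖ ≤ 1) (F : ℕ → ℕ → ℂ) (H n : ℕ)
    (hF : ∀ m, F n m = 0) : er f F H n ≤ 1 := by
  unfold er
  rcases Nat.eq_zero_or_pos H with h | h
  · subst h; simp
  · rw [div_le_one (by exact_mod_cast h)]
    calc ∑ m ∈ Ioc n (n + H), ‖f m - F n m‖ ^ 2 ≤ ∑ _m ∈ Ioc n (n + H), (1 : ℝ) := by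
          apply sum_le_sum
          intro m _
          rw [hF, sub_zero]
          exact pow_le_one₀ (norm_nonneg _) (hf m)
      _ = H := by simp

/-- sums over shifted numbers -/
lemma sum_shift_le (X a : ℕ) (h : ℕ → ℝ) (hh : ∀ n, 0 ≤ h n) :
    ∑ n ∈ (Icc 1 X).filter (fun n => a < n), h (n - a) / (n : ℝ) ≤ lg X h := by
  unfold lg
  calc ∑ n ∈ (Icc 1 X).filter (fun n => a < n), h (n - a) / (n : ℝ)
      ≤ ∑ n ∈ (Icc 1 X).filter (fun n => a < n), h (n - a) / ((n - a : ℕ) : ℝ) := by
        apply sum_le_sum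
        intro n hn
        rw [mem_filter, mem_Icc] at hn
        apply div_le_div_of_nonneg_left (hh _)
        · exact_mod_cast (by omega : 0 < n - a)
        · exact_mod_cast Nat.sub_le _ _
    _ = ∑ n ∈ Icc 1 (X - a), h n / (n : ℝ) := by
        apply sum_nbij' (fun n => n - a) (fun n => n + a)
        · intro n hn; rw [mem_filter, mem_Icc] at hn; rw [mem_Icc]; omega
        · intro n hn; rw [mem_Icc] at hn; rw [mem_filter, mem_Icc]; omega
        · intro n hn; rw [mem_filter] at hn; show n - a + a = n; omega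
        · intro n _; show n + a - a = n; omega
        · intro n _; rfl
    _ ≤ _ := by
        apply sum_le_sum_of_subset_of_nonneg
        · exact Icc_subset_Icc le_rfl (Nat.sub_le _ _)
        · intro n _ _; exact div_nonneg (hh n) (Nat.cast_nonneg _)

/-- the sum over the numbers at most `a` -/
lemma sum_small_le (X a : ℕ) (h : ℕ → ℝ) (hh : ∀ n, n ≤ a → h n ≤ 1) :
    ∑ n ∈ (Icc 1 X).filter (fun n => ¬ a < n), h n / (n : ℝ) ≤ hs a := by
  unfold hs
  calc ∑ n ∈ (Icc 1 X).filter (fun n => ¬ a < n), h n / (n : ℝ)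
      ≤ ∑ n ∈ (Icc 1 X).filter (fun n => ¬ a < n), (1 : ℝ) / n := by
        apply sum_le_sum
        intro n hn
        rw [mem_filter] at hn
        exact div_le_div_of_nonneg_right (hh n (by omega)) (Nat.cast_nonneg _)
    _ ≤ _ := by
        apply sum_le_sum_of_subset_of_nonneg
        · intro n hn
          rw [mem_filter, mem_Icc] at hn
          rw [mem_Icc]; omega
        · intro n _ _; positivity

/-- restriction to shorter windows -/
theorem rst {R : ℕ} (f : ℕ → ℂ) (F : ℕ → ℕ → ℂ) (H H₁ X : ℕ) (hF : ∀ n, Sx R (F n))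
    (hf : ∀ n, ‖f n‖ ≤ 1) (h1 : 1 ≤ H₁) (h2 : H₁ ≤ H) :
    ∃ F' : ℕ → ℕ → ℂ, (∀ n, Sx R (F' n)) ∧
      lg X (er f F' H₁) ≤ 2 * lg X (er f F H) + 1 + Real.log H := by
  obtain ⟨I, hI⟩ : ∃ I, I = H / H₁ := ⟨_, rfl⟩
  have hI1 : 1 ≤ I := by rw [hI]; exact (Nat.one_le_div_iff (by omega)).2 h2
  have hI2 : I * H₁ ≤ H := by rw [hI]; exact Nat.div_mul_le_self _ _
  have hI3 : H ≤ 2 * (I * H₁) := by
    have h3 : H < (I + 1) * H₁ := by
      rw [hI]
      have := lt_md H h1
      calc H < H₁ * (H / H₁) + H₁ := this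
        _ = (H / H₁ + 1) * H₁ := by ring
    have h4 : H₁ ≤ I * H₁ := Nat.le_mul_of_pos_left _ (by omega)
    rw [add_mul, one_mul] at h3
    omega
  have hH₁ : (0 : ℝ) < H₁ := by exact_mod_cast h1
  have hH : (0 : ℝ) < H := by exact_mod_cast (by omega : 0 < H)
  have hI0 : (0 : ℝ) < I := by exact_mod_cast hI1
  obtain ⟨g, hg⟩ : ∃ g : ℕ → ℕ → ℝ, g = fun i n =>
      (∑ m ∈ Ioc (n + i * H₁) (n + i * H₁ + H₁), ‖f m - F n m‖ ^ 2) / H₁ := ⟨_, rfl⟩
  have hg0 : ∀ i n, 0 ≤ g i n := fun i n => by rw [hg]; positivity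
  -- the sum over the pieces
  have h3 : ∀ n k, ∑ i ∈ range k, ∑ m ∈ Ioc (n + i * H₁) (n + i * H₁ + H₁), ‖f m - F n m‖ ^ 2 =
      ∑ m ∈ Ioc n (n + k * H₁), ‖f m - F n m‖ ^ 2 := by
    intro n k
    induction k with
    | zero => simp
    | succ k ih =>
      rw [sum_range_succ, ih]
      have e : n + (k + 1) * H₁ = n + k * H₁ + H₁ := by ring
      rw [e, ← sum_Ioc_consecutive (fun m => ‖f m - F n m‖ ^ 2) (by omega : n ≤ n + k * H₁)
        (by omega : n + k * H₁ ≤ n + k * H₁ + H₁)]
  have h4 : ∀ n, ∑ i ∈ range I, g i n ≤ H / H₁ * er f F H n := by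
    intro n
    have h5 : ∑ i ∈ range I, g i n =
        (∑ m ∈ Ioc n (n + I * H₁), ‖f m - F n m‖ ^ 2) / H₁ := by
      rw [← h3, hg, sum_div]
    have h6 : ∑ m ∈ Ioc n (n + I * H₁), ‖f m - F n m‖ ^ 2 ≤
        ∑ m ∈ Ioc n (n + H), ‖f m - F n m‖ ^ 2 := by
      apply sum_le_sum_of_subset_of_nonneg
      · exact Ioc_subset_Ioc le_rfl (by omega)
      · intro m _ _; positivity
    rw [h5]
    unfold er
    rw [div_mul_div_comm, mul_comm (H₁ : ℝ), mul_div_mul_left _ _ hH.ne']
    exact div_le_div_of_nonneg_right h6 hH₁.le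
  have h5 : ∑ i ∈ range I, lg X (g i) ≤ ∑ _i ∈ range I, 2 * lg X (er f F H) := by
    rw [← lg_sum, sum_const, card_range, nsmul_eq_mul]
    calc lg X (fun n => ∑ i ∈ range I, g i n) ≤ lg X (fun n => H / H₁ * er f F H n) :=
          lg_mono fun n _ => h4 n
      _ = H / H₁ * lg X (er f F H) := lg_mul _ _ _
      _ ≤ (I * 2) * lg X (er f F H) := by
          apply mul_le_mul_of_nonneg_right _ (lg_nonneg fun n _ => er_nonneg _ _ _ _)
          rw [div_le_iff₀ hH₁]
          have : (H : ℝ) ≤ ((2 * (I * H₁) : ℕ) : ℝ) := by exact_mod_cast hI3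
          push_cast at this
          linarith
      _ = _ := by ring
  obtain ⟨i, hi, hi2⟩ := exists_le_of_sum_le ⟨0, mem_range.2 hI1⟩ h5
  have hiI := mem_range.1 hi
  obtain ⟨a, ha⟩ : ∃ a, a = i * H₁ := ⟨_, rfl⟩
  have haH : a ≤ H := by
    rw [ha]
    exact (Nat.mul_le_mul_right H₁ hiI.le).trans hI2
  refine ⟨fun n m => if a < n then F (n - a) m else 0, fun n => ?_, ?_⟩
  · by_cases h : a < n
    · simp only [h, if_true]; exact hF _
    · simp only [h, if_false]; exact Sx_zero R
  obtain ⟨F', hF'⟩ : ∃ F' : ℕ → ℕ → ℂ, F' = fun n m => if a < n then F (n - a) m else 0 :=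
    ⟨_, rfl⟩
  rw [← hF']
  have h6 : lg X (er f F' H₁) ≤ lg X (g i) + hs a := by
    have h7 : lg X (er f F' H₁) =
        ∑ n ∈ (Icc 1 X).filter (fun n => a < n), er f F' H₁ n / (n : ℝ) +
        ∑ n ∈ (Icc 1 X).filter (fun n => ¬ a < n), er f F' H₁ n / (n : ℝ) := by
      unfold lg
      rw [sum_filter_add_sum_filter_not]
    rw [h7]
    apply add_le_add
    · refine le_trans (le_of_eq ?_) (sum_shift_le X a (g i) (hg0 i))
      apply sum_congr rfl
      intro n hn
      rw [mem_filter] at hn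
      congr 1
      unfold er
      rw [hg, hF']
      simp only [hn.2, if_true]
      rw [← ha, Nat.sub_add_cancel hn.2.le]
    · apply sum_small_le
      intro n hn
      apply er_zero_le f hf
      intro m
      rw [hF']
      simp only
      rw [if_neg (by omega)]
  have h7 : hs a ≤ 1 + Real.log H := by
    refine (hs_le a).trans ?_
    rcases Nat.eq_zero_or_pos a with h | h
    · subst h
      have : 0 ≤ Real.log H := Real.log_nonneg (by exact_mod_cast (by omega : 1 ≤ H))
      simp only [Nat.cast_zero, Real.log_zero]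
      linarith
    · have := Real.log_le_log (by exact_mod_cast h : (0 : ℝ) < a)
        (by exact_mod_cast haH : (a : ℝ) ≤ H)
      linarith
  linarith

/-- dilation -/
theorem dil {R : ℕ} (f : ℕ → ℂ) (F : ℕ → ℕ → ℂ) (H d X : ℕ) (hF : ∀ n, Sx R (F n))
    (hf : ∀ n, ‖f n‖ ≤ 1) (hH : 1 ≤ H) (hd : 1 ≤ d) :
    ∃ G : ℕ → ℕ → ℂ, (∀ n, Sx (d * R) (G n)) ∧
      lg X (er (fun m => if d ∣ m then f (m / d) else 0) G H) ≤
        lg X (er f F ((H + d - 1) / d)) + 1 + Real.log d := by
  obtain ⟨H₁, hH₁⟩ : ∃ H₁, H₁ = (H + d - 1) / d := ⟨_, rfl⟩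
  rw [← hH₁]
  have h1 : H ≤ d * H₁ := by
    have h2 : H + d - 1 < d * ((H + d - 1) / d) + d := lt_md _ hd
    rw [hH₁]; omega
  have h2 : H₁ ≤ H := by
    rw [hH₁]
    apply Nat.div_le_of_le_mul
    obtain ⟨k, rfl⟩ := Nat.exists_eq_add_of_le hH
    obtain ⟨l, rfl⟩ := Nat.exists_eq_add_of_le hd
    have : (1 + l) * (1 + k) = 1 + k + (1 + l) - 1 + l * k := by
      have : 1 + k + (1 + l) - 1 = 1 + k + l := by omega
      rw [this]; ring
    rw [this]; omega
  have hH0 : (0 : ℝ) < H := by exact_mod_cast hH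
  have hd0 : (0 : ℝ) < d := by exact_mod_cast hd
  have hH₁0 : 0 < H₁ := by
    rcases Nat.eq_zero_or_pos H₁ with h | h
    · rw [h, mul_zero] at h1; omega
    · exact h
  have hH₁r : (0 : ℝ) < H₁ := by exact_mod_cast hH₁0
  obtain ⟨G, hG⟩ : ∃ G : ℕ → ℕ → ℂ, G = fun n m => if n < d then 0 else
    (if d ∣ m then F (n / d) (m / d) else 0) := ⟨_, rfl⟩
  obtain ⟨fd, hfd⟩ : ∃ fd : ℕ → ℂ, fd = fun m => if d ∣ m then f (m / d) else 0 := ⟨_, rfl⟩
  have hfd1 : ∀ m, ‖fd m‖ ≤ 1 := by
    intro m
    rw [hfd]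
    simp only
    split_ifs
    · exact hf _
    · simp
  rw [← hfd]
  refine ⟨G, fun n => ?_, ?_⟩
  · rw [hG]
    by_cases h : n < d
    · simp only [h, if_true]; exact Sx_zero _
    · simp only [h, if_false]; exact Sx_dil (hF _) d hd
  -- one window
  have h3 : ∀ n, d ≤ n → er fd G H n ≤ er f F H₁ (n / d) := by
    intro n hn
    have h4 : ∑ m ∈ Ioc n (n + H), ‖fd m - G n m‖ ^ 2 ≤
        ∑ k ∈ Ioc (n / d) (n / d + H₁), ‖f k - F (n / d) k‖ ^ 2 := by
      have h5 : ∑ m ∈ Ioc n (n + H), ‖fd m - G n m‖ ^ 2 =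
          ∑ m ∈ (Ioc n (n + H)).filter (fun m => d ∣ m), ‖f (m / d) - F (n / d) (m / d)‖ ^ 2 := by
        rw [sum_filter]
        apply sum_congr rfl
        intro m _
        rw [hfd, hG]
        simp only [not_lt.2 hn, if_false]
        split_ifs
        · rfl
        · simp
      rw [h5]
      have h6 : ∑ m ∈ (Ioc n (n + H)).filter (fun m => d ∣ m),
          ‖f (m / d) - F (n / d) (m / d)‖ ^ 2 =
          ∑ k ∈ ((Ioc n (n + H)).filter (fun m => d ∣ m)).image (fun m => m / d),
            ‖f k - F (n / d) k‖ ^ 2 := by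
        rw [sum_image]
        intro m hm m' hm' h
        rw [mem_coe, mem_filter] at hm hm'
        obtain ⟨k, rfl⟩ := hm.2
        obtain ⟨k', rfl⟩ := hm'.2
        simp only at h
        rw [Nat.mul_div_cancel_left _ hd, Nat.mul_div_cancel_left _ hd] at h
        rw [h]
      rw [h6]
      apply sum_le_sum_of_subset_of_nonneg
      · intro k hk
        rw [mem_image] at hk
        obtain ⟨m, hm, rfl⟩ := hk
        rw [mem_filter, mem_Ioc] at hm
        obtain ⟨⟨h7, h8⟩, k, rfl⟩ := hm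
        rw [Nat.mul_div_cancel_left _ hd, mem_Ioc]
        constructor
        · rw [Nat.div_lt_iff_lt_mul hd, mul_comm]; exact h7
        · have h9 : n < d * (n / d) + d := lt_md _ hd
          have h10 : d * k < d * (n / d + H₁ + 1) := by
            calc d * k ≤ n + H := h8
              _ < d * (n / d) + d + d * H₁ := by omega
              _ = d * (n / d + H₁ + 1) := by ring
          have := Nat.lt_of_mul_lt_mul_left h10
          omega
      · intro k _ _; positivity
    have h7 : 0 ≤ ∑ k ∈ Ioc (n / d) (n / d + H₁), ‖f k - F (n / d) k‖ ^ 2 :=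
      sum_nonneg fun k _ => by positivity
    unfold er
    exact div_le_div₀ h7 h4 hH₁r (by exact_mod_cast h2)
  have h7 : lg X (er fd G H) =
      ∑ n ∈ (Icc 1 X).filter (fun n => d - 1 < n), er fd G H n / (n : ℝ) +
      ∑ n ∈ (Icc 1 X).filter (fun n => ¬ d - 1 < n), er fd G H n / (n : ℝ) := by
    unfold lg
    rw [sum_filter_add_sum_filter_not]
  rw [h7]
  have h8 : ∑ n ∈ (Icc 1 X).filter (fun n => ¬ d - 1 < n), er fd G H n / (n : ℝ) ≤
      1 + Real.log d := by
    have h9 := sum_small_le X (d - 1) (er fd G H) (fun n hn => by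
      apply er_zero_le fd hfd1
      intro m
      rw [hG]
      simp only
      rw [if_pos (by omega)])
    exact h9.trans ((hs_mono (Nat.sub_le d 1)).trans (hs_le d))
  have h9 : ∑ n ∈ (Icc 1 X).filter (fun n => d - 1 < n), er fd G H n / (n : ℝ) ≤
      lg X (er f F H₁) := by
    obtain ⟨h, hh⟩ : ∃ h : ℕ → ℝ, h = er f F H₁ := ⟨_, rfl⟩
    have hh0 : ∀ n, 0 ≤ h n := fun n => by rw [hh]; exact er_nonneg _ _ _ _
    rw [← hh]
    calc ∑ n ∈ (Icc 1 X).filter (fun n => d - 1 < n), er fd G H n / (n : ℝ)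
        ≤ ∑ n ∈ (Icc 1 X).filter (fun n => d - 1 < n), h (n / d) / (n : ℝ) := by
          apply sum_le_sum
          intro n hn
          rw [mem_filter] at hn
          apply div_le_div_of_nonneg_right _ (Nat.cast_nonneg _)
          rw [hh]
          exact h3 n (by omega)
      _ = ∑ k ∈ Icc 1 X, ∑ n ∈ ((Icc 1 X).filter (fun n => d - 1 < n)).filter
            (fun n => n / d = k), h (n / d) / (n : ℝ) := by
          rw [sum_fiberwise_of_maps_to]
          intro n hn
          rw [mem_filter, mem_Icc] at hn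
          rw [mem_Icc]
          exact ⟨(Nat.one_le_div_iff hd).2 (by omega), (Nat.div_le_self _ _).trans hn.1.2⟩
      _ ≤ ∑ k ∈ Icc 1 X, h k / (k : ℝ) := by
          apply sum_le_sum
          intro k hk
          have hk1 := (mem_Icc.1 hk).1
          have hk0 : (0 : ℝ) < k := by exact_mod_cast hk1
          calc ∑ n ∈ ((Icc 1 X).filter (fun n => d - 1 < n)).filter
                (fun n => n / d = k), h (n / d) / (n : ℝ)
              ≤ ∑ _n ∈ ((Icc 1 X).filter (fun n => d - 1 < n)).filter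
                (fun n => n / d = k), h k / (d * k) := by
                apply sum_le_sum
                intro n hn
                rw [mem_filter] at hn
                rw [hn.2]
                apply div_le_div_of_nonneg_left (hh0 k) (by positivity)
                have : d * k ≤ n := by rw [← hn.2]; exact Nat.mul_div_le _ _
                exact_mod_cast this
            _ ≤ d * (h k / (d * k)) := by
                rw [sum_const, nsmul_eq_mul]
                apply mul_le_mul_of_nonneg_right _ (div_nonneg (hh0 k) (by positivity))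
                have h10 : ((Icc 1 X).filter (fun n => d - 1 < n)).filter
                    (fun n => n / d = k) ⊆ Ico (d * k) (d * k + d) := by
                  intro n hn
                  rw [mem_filter] at hn
                  rw [mem_Ico, ← hn.2]
                  exact ⟨Nat.mul_div_le _ _, lt_md _ hd⟩
                have h11 := card_le_card h10
                rw [Nat.card_Ico, Nat.add_sub_cancel_left] at h11
                exact_mod_cast h11
            _ = h k / k := by field_simp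
      _ = lg X h := rfl
  linarith

end Pool.Agent.H72.GM2
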